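import Pool.Agent.Lib.MP_7f581e_K.Spec2

/-!
# C33 K/P2/PowR: `x = z ^ m` makes the ramification at points `c ≠ 0` nonrational
-/

set_option autoImplicit false

namespace MP7K

open MP7Z Polynomial

namespace P2PowR

variable {p : ℕ} [Fact p.Prime] {Ω : Type} [Field Ω] [Algebra (ZMod p) Ω]

theorem mem_cst {ζ : Ω} {n : ℕ} (hn : 0 < n) (h : ζ ^ n = 1) : ζ ∈ Cst p Ω := by
  change ζ ∈ algebraicClosure (ZMod p) Ω
  rw [mem_algebraicClosure_iff]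
  refine IsAlgebraic.of_pow hn ?_
  rw [h]
  exact isAlgebraic_one

theorem val_lt_iff (V : ValuationSubring Ω) {f : Ω} (hf : f ≠ 0) :
    V.valuation f < 1 ↔ f⁻¹ ∉ V := by
  rw [← V.valuation_le_one_iff, map_inv₀, not_le]
  have h0 : V.valuation f ≠ 0 := (Valuation.ne_zero_iff _).2 hf
  exact (one_lt_inv₀ (zero_lt_iff.2 h0)).symm

/-- the valuation ring `δ⁻¹ V` -/
def cm (V : ValuationSubring Ω) (δ : Ω ≃ₐ[ZMod p] Ω) : ValuationSubring Ω :=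
  V.comap (δ : Ω →+* Ω)

theorem mem_cm (V : ValuationSubring Ω) (δ : Ω ≃ₐ[ZMod p] Ω) (f : Ω) :
    f ∈ cm V δ ↔ δ f ∈ V := Iff.rfl

theorem cm_lt (V : ValuationSubring Ω) (δ : Ω ≃ₐ[ZMod p] Ω) (f : Ω) (h : V.valuation (δ f) < 1) :
    (cm V δ).valuation f < 1 := by
  by_cases h0 : f = 0
  · rw [h0, map_zero]
    exact zero_lt_one
  · rw [val_lt_iff _ h0, mem_cm, map_inv₀]
    exact (val_lt_iff V ((map_ne_zero δ).2 h0)).1 h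

theorem cm_ne_top (V : ValuationSubring Ω) (hV : V ≠ ⊤) (δ : Ω ≃ₐ[ZMod p] Ω) : cm V δ ≠ ⊤ := by
  intro h
  apply hV
  rw [eq_top_iff]
  intro f _
  have h1 : δ.symm f ∈ cm V δ := by
    rw [h]
    exact ValuationSubring.mem_top _
  rw [mem_cm, AlgEquiv.apply_symm_apply] at h1
  exact h1

end P2PowR

open P2PowR in
theorem p2PowR (hInP : InPStmt) (hRotM : RotMStmt) : PowRStmt := by
  intro p hpF Ω _ _ x hx G _ ψ N hN m hmp hpm z hz h c hc0 hram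
  have hp : p.Prime := hpF.out
  have hp2 := hp.two_le
  obtain ⟨V, hV, ⟨hcC, hVc⟩, γ, hγI, hγN⟩ := hram
  obtain ⟨b₀, hb₀C, hb₀m, hVb₀, hfix⟩ := hInP p Ω x hx m hmp z hz V hV c hcC hc0 hVc
  have hγz : (γ : Ω ≃ₐ[ZMod p] Ω) z = z := hfix γ ⟨γ.2, hγI⟩
  have hγGz : (γ : Ω ≃ₐ[ZMod p] Ω) ∈ Gx p z := mem_Gx.mpr hγz
  by_cases hrat : b₀ ^ p = b₀
  · have hm0 : 0 < m := by omega
    have hch : CharP Ω p :=
      charP_of_injective_algebraMap (algebraMap (ZMod p) Ω).injective p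
    have hmΩ : NeZero (m : Ω) := ⟨fun h => by
      rw [CharP.cast_eq_zero_iff Ω p] at h
      exact (Nat.Prime.coprime_iff_not_dvd hp).mp hmp.symm h⟩
    have hsep : IsSepClosed Ω := hx.sepClosed
    obtain ⟨ζ, hζ⟩ := HasEnoughRootsOfUnity.exists_primitiveRoot Ω m
    have hζ0 : ζ ≠ 0 := hζ.ne_zero hm0.ne'
    have hζC : ζ ∈ Cst p Ω := mem_cst hm0 hζ.pow_eq_one
    have hζp : ζ ^ p ≠ ζ := by
      intro h1
      have h2 : ζ ^ (p - 1) = 1 := by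
        have h3 : ζ ^ (p - 1) * ζ = 1 * ζ := by
          rw [← pow_succ, Nat.sub_add_cancel hp.one_le, h1, one_mul]
        exact mul_right_cancel₀ hζ0 h3
      have h3 : m ∣ p - 1 := (hζ.pow_eq_one_iff_dvd _).mp h2
      have h4 := Nat.le_of_dvd (by omega) h3
      omega
    have hb₀0 : b₀ ≠ 0 := by
      intro h1
      rw [h1, zero_pow hm0.ne'] at hb₀m
      exact hc0 hb₀m.symm
    obtain ⟨δ, ⟨hδx, hδg⟩, hδz⟩ := hRotM p Ω m hmp x hx z hz ζ hζ.pow_eq_one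
    have hbC : ζ * b₀ ∈ Cst p Ω := (Cst p Ω).mul_mem hζC hb₀C
    have hVζ : V.valuation ζ = 1 := by
      have h1 : V.valuation ζ ^ m = 1 := by rw [← map_pow, hζ.pow_eq_one, map_one]
      exact (pow_eq_one_iff_of_nonneg zero_le (n := m) hm0.ne').1 h1
    have hγC : (γ : Ω ≃ₐ[ZMod p] Ω) ζ = ζ := hγI.1 ζ hζC
    have hγ'x : δ⁻¹ * (γ : Ω ≃ₐ[ZMod p] Ω) * δ ∈ Gx p x :=
      mul_mem (mul_mem (inv_mem hδx) γ.2) hδx
    have hγ'z : δ⁻¹ * (γ : Ω ≃ₐ[ZMod p] Ω) * δ ∈ Gx p z := by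
      rw [mem_Gx]
      change δ.symm ((γ : Ω ≃ₐ[ZMod p] Ω) (δ z)) = z
      rw [hδz, map_mul, hγC, hγz, ← hδz, AlgEquiv.symm_apply_apply]
    refine ⟨ζ * b₀, ?_, cm V δ, cm_ne_top V hV δ, ⟨hbC, ?_⟩,
      ⟨δ⁻¹ * (γ : Ω ≃ₐ[ZMod p] Ω) * δ, hγ'z⟩, ⟨?_, ?_⟩, ?_⟩
    · rw [mul_pow, hrat]
      intro h1
      exact hζp (mul_right_cancel₀ hb₀0 h1)
    · refine cm_lt V δ _ ?_
      have e : δ (z - ζ * b₀) = ζ * (z - b₀) := by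
        rw [map_sub, hδz, hδg (ζ * b₀) hbC]
        ring
      rw [e, map_mul, hVζ, one_mul]
      exact hVb₀
    · have h1 : (γ : Ω ≃ₐ[ZMod p] Ω) ∈ geo p Ω := hγI.1
      have h2 : δ⁻¹ * (γ : Ω ≃ₐ[ZMod p] Ω) * δ ∈ geo p Ω := mul_mem (mul_mem (inv_mem hδg) h1) hδg
      exact h2
    · intro f
      rw [mem_cm, mem_cm]
      have e : δ ((δ⁻¹ * (γ : Ω ≃ₐ[ZMod p] Ω) * δ) f) = (γ : Ω ≃ₐ[ZMod p] Ω) (δ f) := by
        change δ (δ.symm ((γ : Ω ≃ₐ[ZMod p] Ω) (δ f))) = _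
        rw [AlgEquiv.apply_symm_apply]
      rw [e]
      exact hγI.2 (δ f)
    · intro h1
      apply hγN
      have h2 : rs h ψ ⟨δ⁻¹ * (γ : Ω ≃ₐ[ZMod p] Ω) * δ, hγ'z⟩ =
          (ψ ⟨δ, hδx⟩)⁻¹ * ψ γ * ψ ⟨δ, hδx⟩ := by
        rw [rs_apply, ← map_inv, ← map_mul, ← map_mul]
        rfl
      rw [h2] at h1
      have h3 := hN.conj_mem _ h1 (ψ ⟨δ, hδx⟩)
      have e : ψ ⟨δ, hδx⟩ * ((ψ ⟨δ, hδx⟩)⁻¹ * ψ γ * ψ ⟨δ, hδx⟩) * (ψ ⟨δ, hδx⟩)⁻¹ = ψ γ := by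
        group
      rwa [e] at h3
  · exact ⟨b₀, hrat, V, hV, ⟨hb₀C, hVb₀⟩, ⟨γ, hγGz⟩, hγI, hγN⟩

end MP7K
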