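import Pool.Agent.Lib.MP_7f581e_K.Spec2

/-!
# C33 K/P2/SC: the line has no unramified cyclic extension of prime degree
-/

set_option autoImplicit false

namespace MP7K

open MP7Z Polynomial

namespace P2SC

/-- an algebraic element is fixed -/
theorem fix_alg {𝕜 K : Type} [Field 𝕜] [IsAlgClosed 𝕜] [Field K] [Algebra 𝕜 K] (τ : K ≃ₐ[𝕜] K)
    {f : K} (hf : IsAlgebraic 𝕜 f) : τ f = f := by
  have hi : IsIntegral 𝕜 f := hf.isIntegral
  have h1 : (minpoly 𝕜 f).degree = 1 :=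
    IsAlgClosed.degree_eq_one_of_irreducible 𝕜 (minpoly.irreducible hi)
  obtain ⟨c, hc⟩ := minpoly.mem_range_of_degree_eq_one 𝕜 f h1
  rw [← hc, τ.commutes]

theorem pow_ringEquiv {𝕜 K : Type} [Field 𝕜] [Field K] [Algebra 𝕜 K] (τ : K ≃ₐ[𝕜] K) (k : ℕ)
    (f : K) : ((τ : K ≃+* K) ^ k) f = (τ ^ k) f := by
  induction k generalizing f with
  | zero => rfl
  | succ k ih =>
    rw [pow_succ, pow_succ]
    change ((τ : K ≃+* K) ^ k) ((τ : K ≃+* K) f) = (τ ^ k) (τ f)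
    rw [ih]
    rfl

theorem pole {𝕜 K : Type} [Field 𝕜] [IsAlgClosed 𝕜] [Field K] [Algebra 𝕜 K] {p : ℕ} (hp : 1 < p)
    (w : Place 𝕜 K) {g h : K} (hh : h ≠ 0) (hgh : g ^ p - g = h) (hneg : w.pord h < 0) :
    (p : ℤ) ∣ w.pord h := by
  have hg0 : g ≠ 0 := by
    rintro rfl
    rw [zero_pow (by omega), sub_zero] at hgh
    exact hh hgh.symm
  have hg : w.pord g < 0 := by
    by_contra h1
    push Not at h1
    have h2 : 0 ≤ w.ord g := (w.le_pord_iff hg0 0).1 h1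
    have h3 : 0 ≤ w.ord (g ^ p - g) := by
      refine le_trans (le_min ?_ h2) (AddValuation.map_sub w.ord _ _)
      rw [AddValuation.map_pow]
      exact nsmul_nonneg h2 p
    rw [hgh] at h3
    have h4 := (w.le_pord_iff hh 0).2 h3
    omega
  have h3 : w.pord (-g) = w.pord g := by
    unfold Place.pord
    rw [AddValuation.map_neg]
  have hp' : (1 : ℤ) < p := by exact_mod_cast hp
  have h4 := w.pord_add (pow_ne_zero p hg0) (neg_ne_zero.2 hg0) (by
    rw [h3, w.pord_pow hg0]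
    nlinarith)
  rw [← sub_eq_add_neg, w.pord_pow hg0, hgh] at h4
  rw [h4.2]
  exact Dvd.intro _ rfl

end P2SC

open P2SC in
theorem p2SC (hKGen : KGenStmt) (hAGen : AGenStmt) (hRat : RatStmt) (hKPow : KPowStmt)
    (hASN : ASNStmt) : SCStmt := by
  intro p hpF 𝕜 K₀ K _ _ _ _ _ _ _ _ ι x hx hxtop τ ℓ hℓ hτℓ hfix' hfix hpl
  have hp : p.Prime := hpF.out
  by_contra hcon
  push Not at hcon
  have hιinj : Function.Injective ι := ι.toRingHom.injective
  have hιne : ∀ a : K₀, a ≠ 0 → ι a ≠ 0 := fun a ha h => ha (hιinj (h.trans (map_zero ι).symm))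
  have hτR : ∀ f, ((τ : K ≃+* K) ^ ℓ) f = f := by
    intro f
    rw [pow_ringEquiv, hτℓ]
  have hconR : ∃ f, (τ : K ≃+* K) f ≠ f := hcon
  by_cases hlp : ℓ = p
  · subst hlp
    have hchK : CharP K ℓ := charP_of_injective_algebraMap (algebraMap 𝕜 K).injective ℓ
    have hchK₀ : CharP K₀ ℓ := charP_of_injective_algebraMap (algebraMap 𝕜 K₀).injective ℓ
    obtain ⟨Z, hZ⟩ := hAGen ℓ K (τ : K ≃+* K) hτR hconR
    have hZ' : τ Z = Z + 1 := hZ
    have hfr : ∀ a b : K, (a + b) ^ ℓ = a ^ ℓ + b ^ ℓ := fun a b => add_pow_char a b ℓ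
    have h1 : τ (Z ^ ℓ - Z) = Z ^ ℓ - Z := by
      rw [map_sub, map_pow, hZ', hfr, one_pow]
      ring
    obtain ⟨z, hz⟩ := hfix _ h1
    obtain ⟨g, hg⟩ := hASN ℓ 𝕜 K₀ (hRat 𝕜 K₀ x hx hxtop).2.2 z
    set z' : K₀ := z - (g ^ ℓ - g) with hz'def
    set Z' : K := Z - ι g with hZ'def
    have hZZ : Z' ^ ℓ - Z' = ι z' := by
      rw [hz'def, map_sub, map_sub, map_pow, hz, hZ'def]
      have h2 : (Z - ι g) ^ ℓ = Z ^ ℓ - (ι g) ^ ℓ := sub_pow_char Z (ι g)
      rw [h2]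
      ring
    have hτZ' : τ Z' = Z' + 1 := by
      rw [hZ'def, map_sub, hZ', hfix' g]
      ring
    have hz'0 : ∀ v : Place 𝕜 K₀, 0 ≤ v.ord z' := by
      intro v
      rcases hg v with h2 | h2
      · exact h2
      · by_contra h3
        apply h2
        have hz'ne : z' ≠ 0 := by
          intro h4
          apply h3
          rw [h4, AddValuation.map_zero]
          exact le_top
        have h5 : v.pord z' < 0 := by
          by_contra h6
          push Not at h6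
          exact h3 ((v.le_pord_iff hz'ne 0).1 h6)
        obtain ⟨v', hv'⟩ := hpl v
        rw [← hv']
        exact pole hp.one_lt v' (hιne z' hz'ne) hZZ (by rw [hv']; exact h5)
    obtain ⟨c, hc⟩ := exists_const_of_nonneg hz'0
    have halg : IsAlgebraic 𝕜 Z' := by
      refine ⟨X ^ ℓ - X - C c, ?_, ?_⟩
      · intro h2
        have h3 := congrArg (fun q : 𝕜[X] => q.coeff ℓ) h2
        simp only [coeff_sub, coeff_X_pow, if_true, coeff_zero] at h3
        rw [coeff_X, if_neg (by have := hℓ.one_lt; omega), coeff_C, if_neg hℓ.ne_zero] at h3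
        simp at h3
      · rw [map_sub, map_sub, map_pow, aeval_X, aeval_C, hZZ, hc, ι.commutes, sub_self]
    have h2 := fix_alg τ halg
    rw [hτZ'] at h2
    exact one_ne_zero (left_eq_add.mp h2.symm)
  · have hℓ𝕜 : NeZero (ℓ : 𝕜) := ⟨fun h => by
      rw [CharP.cast_eq_zero_iff 𝕜 p] at h
      exact hlp ((Nat.prime_dvd_prime_iff_eq hp hℓ).mp h).symm⟩
    have hℓK : (ℓ : K) ≠ 0 := by
      have h1 : (ℓ : K) = algebraMap 𝕜 K (ℓ : 𝕜) := (map_natCast _ _).symm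
      rw [h1]
      exact fun h => hℓ𝕜.out ((map_eq_zero _).mp h)
    obtain ⟨ζ, hζ⟩ := HasEnoughRootsOfUnity.exists_primitiveRoot 𝕜 ℓ
    have hζ' : IsPrimitiveRoot (algebraMap 𝕜 K ζ) ℓ :=
      hζ.map_of_injective (algebraMap 𝕜 K).injective
    obtain ⟨Z, i, hZ0, hZ, hζi⟩ := hKGen K (τ : K ≃+* K) ℓ hℓ hℓK (algebraMap 𝕜 K ζ) hζ'
      (τ.commutes ζ) hτR hconR
    have hZ' : τ Z = algebraMap 𝕜 K ζ ^ i * Z := hZ
    have h1 : τ (Z ^ ℓ) = Z ^ ℓ := by
      rw [map_pow, hZ', mul_pow, ← pow_mul, mul_comm i, pow_mul, hζ'.pow_eq_one, one_pow, one_mul]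
    obtain ⟨z, hz⟩ := hfix _ h1
    have hz0 : z ≠ 0 := by
      intro h2
      rw [h2, map_zero] at hz
      exact pow_ne_zero ℓ hZ0 hz.symm
    obtain ⟨g, hg⟩ := hKPow 𝕜 K₀ x hx hxtop ℓ hℓ.pos z hz0 (by
      intro v
      obtain ⟨v', hv'⟩ := hpl v
      rw [← hv', hz, v'.pord_pow hZ0]
      exact Dvd.intro _ rfl)
    have hg0 : g ≠ 0 := by
      intro h2
      rw [h2, zero_pow hℓ.ne_zero] at hg
      exact hz0 hg.symm
    have hιg := hιne g hg0
    have h2 : (Z / ι g) ^ ℓ = 1 := by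
      rw [div_pow, ← hz, ← hg, map_pow, div_self (pow_ne_zero ℓ hιg)]
    have halg : IsAlgebraic 𝕜 (Z / ι g) := by
      refine IsAlgebraic.of_pow hℓ.pos ?_
      rw [h2]
      exact isAlgebraic_one
    have h3 := fix_alg τ halg
    rw [map_div₀, hfix' g, div_left_inj' hιg, hZ'] at h3
    exact hζi (mul_right_cancel₀ hZ0 (h3.trans (one_mul Z).symm))

end MP7K
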