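import Pool.Agent.Lib.MP_7f581e_K.P2.MainA
import Pool.Agent.Lib.MP_7f581e_K.P2.PowR
import Pool.Agent.Lib.MP_7f581e_K.P2.SC

/-!
# C33, Part II, complete: `k2BaseW : BaseW` and `k2StartW : StartW`
-/

set_option autoImplicit false

namespace MP7K

open MP7Z

theorem k2PowR : PowRStmt := p2PowR k2InP k2RotM
theorem k2Six : SixStmt := p2Six k2Ex k2Stg k2PowS k2PowO k2PowR k2Mob k2Keep
theorem k2SC : SCStmt := p2SC k2KGen k2AGen k2Rat k2KPow k2ASN
theorem k2SS : SSStmt := p2SS k2SC k2Unr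
theorem k2II : IIStmt := p2II k2Six k2SS

/-- **(II.2).** -/
theorem k2StartW : StartW := p2StartW k2II

end MP7K
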