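import Pool.Agent.Lib.MP_7f581e_K.Spec2

/-!
# C33, Part II, AGen: Artin-Schreier generators
-/

set_option autoImplicit false

namespace MP7K

/-- Artin-Schreier generators -/
theorem p2AGen : AGenStmt := by
  intro p hp K _ _ τ hτ hf
  obtain ⟨f, hf⟩ := hf
  let T : AddMonoid.End K := (τ : K →+* K).toAddMonoidHom
  have hchar : CharP (AddMonoid.End K) p := by
    refine ⟨fun n => ?_⟩
    rw [← CharP.cast_eq_zero_iff K p n]
    constructor
    · intro h
      have := DFunLike.congr_fun h (1 : K)
      simpa using this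
    · intro h
      ext x
      simp [h]
  let D : AddMonoid.End K := T - 1
  have hTpow : ∀ n : ℕ, ∀ x, (T ^ n) x = (τ ^ n) x := by
    intro n
    induction n with
    | zero => intro x; rfl
    | succ n ih =>
      intro x
      rw [pow_succ', pow_succ']
      change T ((T ^ n) x) = τ ((τ ^ n) x)
      rw [ih]
      rfl
  have hDp : D ^ p = 0 := by
    have h1 : (T - 1) ^ p = T ^ p - 1 ^ p := sub_pow_char_of_commute p (Commute.one_right T)
    change (T - 1) ^ p = 0
    rw [h1, one_pow, sub_eq_zero]
    ext x
    rw [hTpow, hτ]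
    rfl
  have hD : ∀ x, D x = τ x - x := fun x => rfl
  classical
  have hex : ∃ k, (D ^ k) f = 0 := ⟨p, by rw [hDp]; rfl⟩
  let k := Nat.find hex
  have hk : (D ^ k) f = 0 := Nat.find_spec hex
  have hk2 : 2 ≤ k := by
    by_contra h
    have h' : k = 0 ∨ k = 1 := by omega
    rcases h' with h' | h'
    · rw [h', pow_zero] at hk
      have hf0 : f = 0 := hk
      exact hf (by rw [hf0, map_zero])
    · rw [h', pow_one, hD, sub_eq_zero] at hk
      exact hf hk
  obtain ⟨m, hm⟩ : ∃ m, k = m + 2 := ⟨k - 2, by omega⟩
  have hh : (D ^ (m + 1)) f ≠ 0 := by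
    intro h
    have := Nat.find_min' hex h
    change k ≤ m + 1 at this
    omega
  set h := (D ^ (m + 1)) f with hdef
  set g := (D ^ m) f with gdef
  have hg : τ g = g + h := by
    have : D g = h := by
      rw [hdef, pow_succ']
      rfl
    rw [hD] at this
    rw [← this]
    ring
  have hh1 : τ h = h := by
    have : D h = 0 := by
      rw [hm] at hk
      rw [← hk, pow_succ' D (m + 1)]
      rfl
    rw [hD] at this
    exact sub_eq_zero.1 this
  refine ⟨g / h, ?_⟩
  rw [map_div₀, hg, hh1, add_div, div_self hh]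

end MP7K
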