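import Pool.Agent.Lib.MP_7f581e_K.Spec2

/-!
# C33, Part II: normal form modulo `g ^ p - g` (`ASN`)
-/

set_option autoImplicit false

namespace MP7K

open MP7Z

namespace P2ASN

variable {𝕜 K : Type} [Field 𝕜] [IsAlgClosed 𝕜] [Field K] [Algebra 𝕜 K]

theorem pord_nonneg (v : Place 𝕜 K) {f : K} (h : 0 ≤ v.ord f) : 0 ≤ v.pord f := by
  rcases eq_or_ne f 0 with rfl | hf
  · simp [Place.pord]
  · exact (v.le_pord_iff hf 0).2 h

/-- one reduction step at a pole `v` whose order is divisible by `p` -/
theorem step {p : ℕ} (hp : p.Prime) (v : Place 𝕜 K) [IsCurveField 𝕜 K] {t f : K}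
    (ht : v.pord t = -1) (ht' : ∀ w : Place 𝕜 K, w ≠ v → 0 ≤ w.ord t) (hf : ¬ 0 ≤ v.ord f)
    (hd : (p : ℤ) ∣ v.pord f) : ∃ g : K, (∀ w : Place 𝕜 K, w ≠ v → 0 ≤ w.ord g) ∧
      v.pord f < v.pord (f - (g ^ p - g)) := by
  have hf0 : f ≠ 0 := by
    rintro rfl
    exact hf (by rw [AddValuation.map_zero]; exact le_top)
  have hneg : v.pord f < 0 := by
    by_contra h
    exact hf ((v.le_pord_iff hf0 0).1 (not_lt.1 h))
  have ht0 : t ≠ 0 := by
    rintro rfl
    simp [Place.pord] at ht
  obtain ⟨j, hj⟩ := hd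
  have hp0 : (0 : ℤ) < p := by exact_mod_cast hp.pos
  have hj0 : j < 0 := by
    by_contra h
    have : 0 ≤ (p : ℤ) * j := mul_nonneg hp0.le (not_lt.1 h)
    omega
  obtain ⟨k, hk⟩ : ∃ k : ℕ, j = -(k : ℤ) := ⟨(-j).toNat, by omega⟩
  have hk0 : 0 < k := by omega
  set s : K := t ^ (p * k) with hs
  have hs0 : s ≠ 0 := pow_ne_zero _ ht0
  have hps : v.pord s = v.pord f := by
    rw [hs, v.pord_pow ht0, ht, hj, hk]
    push_cast
    ring
  set u : K := f / s with hu
  have hu0 : u ≠ 0 := div_ne_zero hf0 hs0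
  have hpu : v.pord u = 0 := by rw [hu, v.pord_div hf0 hs0, hps, sub_self]
  have hou : v.ord u = 0 := by rw [v.ord_eq_pord hu0, hpu]; rfl
  obtain ⟨c, hc⟩ := exists_const v (f := u) (by rw [hou])
  have hc0 : c ≠ 0 := by
    rintro rfl
    rw [map_zero, sub_zero, hou] at hc
    exact lt_irrefl _ hc
  obtain ⟨d, hd⟩ := IsAlgClosed.exists_pow_nat_eq c hp.pos
  have hd0 : d ≠ 0 := by
    rintro rfl
    rw [zero_pow hp.ne_zero] at hd
    exact hc0 hd.symm
  set g : K := algebraMap 𝕜 K d * t ^ k with hg
  have hgp : g ^ p = algebraMap 𝕜 K c * s := by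
    rw [hg, mul_pow, ← map_pow, hd, hs, ← pow_mul, mul_comm k p]
  have hda : algebraMap 𝕜 K d ≠ 0 := by simpa using hd0
  have hg0 : g ≠ 0 := mul_ne_zero hda (pow_ne_zero _ ht0)
  have hpg : v.pord g = -(k : ℤ) := by
    rw [hg, v.pord_mul hda (pow_ne_zero _ ht0), v.pord_const, v.pord_pow ht0, ht]
    ring
  have hk1 : v.pord f < -(k : ℤ) := by
    rw [hj, hk]
    have h2 : (2 : ℤ) ≤ p := by exact_mod_cast hp.two_le
    have h3 : (1 : ℤ) ≤ k := by exact_mod_cast hk0
    nlinarith
  refine ⟨g, ?_, ?_⟩
  · intro w hw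
    rw [hg, AddValuation.map_mul, AddValuation.map_pow]
    exact add_nonneg (w.const d) (nsmul_nonneg (ht' w hw) k)
  · have e1 : f - (g ^ p - g) = s * (u - algebraMap 𝕜 K c) + g := by
      rw [hgp, hu]
      field_simp
      ring
    have h1 : ((v.pord f : ℤ) : WithTop ℤ) < v.ord (s * (u - algebraMap 𝕜 K c)) := by
      rw [AddValuation.map_mul, v.ord_eq_pord hs0, hps]
      rcases eq_or_ne (u - algebraMap 𝕜 K c) 0 with h0 | h0
      · rw [h0, AddValuation.map_zero, add_top]
        exact WithTop.coe_lt_top _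
      · rw [v.ord_eq_pord h0] at hc ⊢
        have hc' : (0 : ℤ) < v.pord (u - algebraMap 𝕜 K c) := by exact_mod_cast hc
        have : v.pord f < v.pord f + v.pord (u - algebraMap 𝕜 K c) := by omega
        exact_mod_cast this
    have h2 : ((v.pord f : ℤ) : WithTop ℤ) < v.ord g := by
      rw [v.ord_eq_pord hg0, hpg]
      exact_mod_cast hk1
    have h3 : ((v.pord f : ℤ) : WithTop ℤ) < v.ord (f - (g ^ p - g)) := by
      rw [e1]
      exact lt_of_lt_of_le (lt_min h1 h2) (v.ord.map_add _ _)
    rcases eq_or_ne (f - (g ^ p - g)) 0 with h0 | h0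
    · rw [h0]
      simpa [Place.pord] using hneg
    · exact (v.lt_pord_iff h0 _).2 h3

end P2ASN

open P2ASN in
theorem p2ASN : ASNStmt := by
  intro p _ 𝕜 K₀ _ _ _ _ _ _ hT f
  classical
  have hp : p.Prime := Fact.out
  have hchar : CharP K₀ p := charP_of_injective_algebraMap (algebraMap 𝕜 K₀).injective p
  by_cases hf0 : f = 0
  · refine ⟨0, fun v => Or.inl ?_⟩
    rw [hf0, zero_pow hp.ne_zero, sub_zero, sub_zero, AddValuation.map_zero]
    exact le_top
  set T : Finset (Place 𝕜 K₀) := (finite_ord_ne (𝕜 := 𝕜) hf0).toFinset with hTdef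
  have hTf : ∀ v, v ∉ T → 0 ≤ v.ord f := by
    intro v hv
    rw [hTdef, Set.Finite.mem_toFinset] at hv
    have : v.ord f = 0 := by
      by_contra h
      exact hv h
    rw [this]
  have key : ∀ (n : ℕ) (f : K₀), (∀ v, v ∉ T → 0 ≤ v.ord f) →
      ∑ v ∈ T, (-(v.pord f)).toNat ≤ n → ∃ g : K₀, ∀ v : Place 𝕜 K₀,
        0 ≤ v.ord (f - (g ^ p - g)) ∨ ¬ (p : ℤ) ∣ v.pord (f - (g ^ p - g)) := by
    intro n
    induction n with
    | zero =>
      intro f hf hn
      refine ⟨0, fun v => Or.inl ?_⟩
      rw [zero_pow hp.ne_zero, sub_zero, sub_zero]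
      by_cases hv : v ∈ T
      · have h1 : (-(v.pord f)).toNat = 0 := by
          have := Finset.single_le_sum (f := fun v : Place 𝕜 K₀ => (-(v.pord f)).toNat)
            (fun _ _ => Nat.zero_le _) hv
          omega
        rcases eq_or_ne f 0 with rfl | hf0
        · rw [AddValuation.map_zero]; exact le_top
        · rw [← WithTop.coe_zero, ← v.le_pord_iff hf0]
          omega
      · exact hf v hv
    | succ n ih =>
      intro f hf hn
      by_cases hall : ∀ v : Place 𝕜 K₀, 0 ≤ v.ord f ∨ ¬ (p : ℤ) ∣ v.pord f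
      · refine ⟨0, fun v => ?_⟩
        rw [zero_pow hp.ne_zero, sub_zero, sub_zero]
        exact hall v
      · push Not at hall
        obtain ⟨v, hv1, hv2⟩ := hall
        obtain ⟨t, ht, ht'⟩ := hT v
        obtain ⟨g₁, hg1, hg2⟩ := step hp v ht ht' (not_le.2 hv1) hv2
        have hvT : v ∈ T := by
          by_contra h
          exact absurd (hf v h) (not_le.2 hv1)
        set f₁ := f - (g₁ ^ p - g₁) with hf1
        have hge : ∀ w : Place 𝕜 K₀, w ≠ v → min (w.ord f) 0 ≤ w.ord f₁ := by
          intro w hw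
          have h1 : 0 ≤ w.ord (g₁ ^ p - g₁) := by
            refine le_trans (le_min ?_ (hg1 w hw)) (AddValuation.map_sub w.ord _ _)
            rw [AddValuation.map_pow]
            exact nsmul_nonneg (hg1 w hw) p
          exact le_trans (min_le_min_left _ h1) (AddValuation.map_sub w.ord _ _)
        obtain ⟨g₂, hg₂⟩ := ih f₁ (by
          intro w hw
          have hwv : w ≠ v := fun h => hw (h ▸ hvT)
          have := hge w hwv
          rwa [min_eq_right (hf w hw)] at this) (by
          have hlt : ∑ w ∈ T, (-(w.pord f₁)).toNat < ∑ w ∈ T, (-(w.pord f)).toNat := by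
            refine Finset.sum_lt_sum ?_ ⟨v, hvT, ?_⟩
            · intro w _
              by_cases hwv : w = v
              · subst hwv
                omega
              · have h2 := hge w hwv
                rcases eq_or_ne f₁ 0 with h0 | h0
                · rw [h0]
                  simp [Place.pord]
                · by_cases h3 : 0 ≤ w.ord f
                  · rw [min_eq_right h3] at h2
                    have := pord_nonneg w h2
                    omega
                  · have hf0 : f ≠ 0 := by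
                      rintro rfl
                      exact h3 (by rw [AddValuation.map_zero]; exact le_top)
                    rw [min_eq_left (le_of_lt (not_le.1 h3)), w.ord_eq_pord hf0,
                      ← w.le_pord_iff h0] at h2
                    omega
            · have h4 : v.pord f < 0 := by
                rcases eq_or_ne f 0 with h0 | h0
                · rw [h0, AddValuation.map_zero] at hv1
                  exact absurd hv1 (not_lt.2 le_top)
                · rw [v.ord_eq_pord h0] at hv1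
                  exact_mod_cast hv1
              omega
          omega)
        refine ⟨g₁ + g₂, fun w => ?_⟩
        have e : f - ((g₁ + g₂) ^ p - (g₁ + g₂)) = f₁ - (g₂ ^ p - g₂) := by
          rw [add_pow_char, hf1]
          ring
        rw [e]
        exact hg₂ w
  exact key _ f hTf le_rfl

end MP7K
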