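import Pool.Agent.Lib.MP_7f581e_K.Spec2

/-!
# C33, Part II: commutators of geometric elements fix the points above `x`
-/

set_option autoImplicit false

namespace MP7K

open MP7Z Polynomial

namespace P2Com

section

variable {p : ℕ} [Fact p.Prime] {Ω : Type} [Field Ω] [Algebra (ZMod p) Ω]

theorem mem_cst {k : Ω} (h : IsAlgebraic (ZMod p) k) : k ∈ Cst p Ω := by
  change k ∈ algebraicClosure (ZMod p) Ω
  rw [mem_algebraicClosure_iff]
  exact h

theorem fix_geo {γ : Ω ≃ₐ[ZMod p] Ω} (hγ : γ ∈ geo p Ω) {k : Ω} (h : IsAlgebraic (ZMod p) k) :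
    γ k = k := mem_Fx.1 hγ k (mem_cst h)

theorem root_fix {γ : Ω ≃ₐ[ZMod p] Ω} (hγ : γ ∈ geo p Ω) {ζ : Ω} {n : ℕ} (hn : 0 < n)
    (h : ζ ^ n = 1) : γ ζ = ζ := by
  refine fix_geo hγ ?_
  refine IsAlgebraic.of_pow hn ?_
  rw [h]
  exact isAlgebraic_one

theorem zero_alg : IsAlgebraic (ZMod p) (0 : Ω) := isAlgebraic_zero

end

end P2Com

open P2Com

theorem p2Com (hLin : LinStmt) : ComStmt := by
  intro p _ Ω _ _ x hst a ha y hy γ hγ δ hδ
  have hγx : γ x = x := mem_Gx.1 hγ.1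
  have hδx : δ x = x := mem_Gx.1 hδ.1
  have hx0 : x ≠ 0 := by
    intro h
    apply hst.transc
    rw [h]
    exact zero_alg
  cases a with
  | tr c =>
    have hy' : y + algebraMap (ZMod p) Ω c = x := hy
    have key : ∀ σ : Ω ≃ₐ[ZMod p] Ω, σ x = x → σ y = y := by
      intro σ hσ
      rw [← hy', map_add, AlgEquiv.commutes] at hσ
      exact add_right_cancel hσ
    rw [key δ hδx, key γ hγx, key δ hδx]
  | inv =>
    have hy' : y⁻¹ = x := hy
    have key : ∀ σ : Ω ≃ₐ[ZMod p] Ω, σ x = x → σ y = y := by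
      intro σ hσ
      rw [← hy', map_inv₀] at hσ
      exact inv_injective hσ
    rw [key δ hδx, key γ hγx, key δ hδx]
  | pow n =>
    have hy' : y ^ n = x := hy
    have hn : 0 < n := by
      rcases Nat.eq_zero_or_pos n with h | h
      · exfalso
        rw [h] at ha
        have h1 : Nat.Coprime 0 p := ha
        rw [Nat.coprime_zero_left] at h1
        exact (Fact.out : p.Prime).one_lt.ne' h1
      · exact h
    have hy0 : y ≠ 0 := by
      intro h
      rw [h, zero_pow hn.ne'] at hy'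
      exact hx0 hy'.symm
    have key : ∀ σ : Ω ≃ₐ[ZMod p] Ω, σ x = x → ∃ ζ : Ω, ζ ^ n = 1 ∧ σ y = ζ * y := by
      intro σ hσ
      refine ⟨σ y / y, ?_, ?_⟩
      · rw [div_pow, ← map_pow, hy', hσ, div_self hx0]
      · rw [div_mul_cancel₀ _ hy0]
    obtain ⟨ζ, hζ, hδy⟩ := key δ hδx
    obtain ⟨ξ, hξ, hγy⟩ := key γ hγx
    rw [hδy, hγy, map_mul, map_mul, hδy, hγy, root_fix hγ.2 hn hζ, root_fix hδ.2 hn hξ]
    ring
  | add l =>
    have hy' : lin p l y = x := hy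
    have hl : l ≠ 0 := by
      intro h
      have h1 : l.coeff 0 ≠ 0 := ha
      rw [h, coeff_zero] at h1
      exact h1 rfl
    obtain ⟨P, hdeg, -, -, hP, hσ⟩ := hLin p l hl
    have hP0 : P ≠ 0 := by
      intro h
      rw [h, natDegree_zero] at hdeg
      exact (pow_pos (Fact.out : p.Prime).pos _).ne hdeg
    have key : ∀ σ : Ω ≃ₐ[ZMod p] Ω, σ x = x → ∃ k : Ω, IsAlgebraic (ZMod p) k ∧ σ y = y + k := by
      intro σ hσx
      refine ⟨σ y - y, ⟨P, hP0, ?_⟩, by ring⟩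
      rw [← hP Ω, map_sub]
      have h2 := hσ Ω (σ : Ω →ₐ[ZMod p] Ω) y
      have h3 : σ (lin p l y) = lin p l (σ y) := h2
      rw [← h3, hy', hσx, sub_self]
    obtain ⟨k, hk, hδy⟩ := key δ hδx
    obtain ⟨k', hk', hγy⟩ := key γ hγx
    rw [hδy, hγy, map_add, map_add, hδy, hγy, fix_geo hγ.2 hk, fix_geo hδ.2 hk']
    ring

end MP7K
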