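import Pool.Agent.Lib.MP_7f581e_K.Spec2

/-!
# C33 (MP_7f581e_nt), Part II, module `Ex`: points above `x`
-/

set_option autoImplicit false

namespace MP7K

open MP7Z Polynomial

namespace P2Ex

theorem atom_ex (h : LinStmt) {p : ℕ} [Fact p.Prime] {Ω : Type} [Field Ω] [Algebra (ZMod p) Ω]
    [IsSepClosed Ω] (a : Atom p) (ha : a.Ok) (x : Ω) : ∃ y : Ω, a.ev y = x := by
  have hp : p.Prime := Fact.out
  have hch : CharP Ω p := charP_of_injective_algebraMap (algebraMap (ZMod p) Ω).injective p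
  cases a with
  | tr c => exact ⟨x - algebraMap (ZMod p) Ω c, by simp [Atom.ev]⟩
  | inv => exact ⟨x⁻¹, by simp [Atom.ev]⟩
  | pow n =>
    have hn : (n : Ω) ≠ 0 := by
      intro h0
      have h1 : p ∣ n := (CharP.cast_eq_zero_iff Ω p n).1 h0
      have h2 : n.Coprime p := ha
      exact ((Nat.Prime.coprime_iff_not_dvd hp).1 h2.symm) h1
    have : NeZero (n : Ω) := ⟨hn⟩
    obtain ⟨z, hz⟩ := IsSepClosed.exists_pow_nat_eq x n
    exact ⟨z, hz⟩
  | add l =>
    have hl0 : l.coeff 0 ≠ 0 := ha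
    have hl : l ≠ 0 := by
      intro h0
      rw [h0, coeff_zero] at hl0
      exact hl0 rfl
    obtain ⟨P, hP1, _, hP3, hP4, _⟩ := h p l hl
    obtain ⟨u, hu⟩ : ∃ u : Ω, u = algebraMap (ZMod p) Ω (l.coeff 0) := ⟨_, rfl⟩
    have hu0 : u ≠ 0 := by
      rw [hu]
      intro h0
      exact hl0 ((map_eq_zero _).1 h0)
    obtain ⟨Q, hQ⟩ : ∃ Q : Polynomial Ω, Q = P.map (algebraMap (ZMod p) Ω) - C x := ⟨_, rfl⟩
    have hQd : derivative Q = C u := by
      rw [hQ, derivative_sub, derivative_C, sub_zero, derivative_map, hP3, map_C, ← hu]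
    have hsep : Q.Separable := by
      refine ⟨0, C u⁻¹, ?_⟩
      rw [hQd, zero_mul, zero_add, ← C_mul, inv_mul_cancel₀ hu0, C_1]
    have hdeg : Q.degree ≠ 0 := by
      have h1 : Q.natDegree = p ^ l.natDegree := by
        rw [hQ, natDegree_sub_C, natDegree_map, hP1]
      have h2 : 0 < p ^ l.natDegree := Nat.pow_pos hp.pos
      intro h3
      have h4 : Q.natDegree = 0 := natDegree_eq_zero_iff_degree_le_zero.2 h3.le
      omega
    obtain ⟨y, hy⟩ := IsSepClosed.exists_root Q hdeg hsep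
    refine ⟨y, ?_⟩
    show lin p l y = x
    rw [hP4, aeval_def]
    have h5 : eval y Q = 0 := hy
    rw [hQ, eval_sub, eval_C, eval_map] at h5
    exact sub_eq_zero.1 h5

end P2Ex

theorem p2Ex (h : LinStmt) : ExStmt := by
  intro p _ Ω _ _ _ w
  induction w with
  | nil =>
    intro _ x
    exact ⟨x, rfl⟩
  | cons a w ih =>
    intro hw x
    obtain ⟨z, hz⟩ := P2Ex.atom_ex h a (hw a List.mem_cons_self) x
    obtain ⟨y, hy⟩ := ih (fun b hb => hw b (List.mem_cons_of_mem a hb)) z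
    exact ⟨y, by rw [ev_cons, hy, hz]⟩

end MP7K
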