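import Pool.Agent.Lib.MP_7f581e_K.Spec2
import Pool.Agent.Lib.MP_7f581e_K.DefsO

/-!
# C33, Part II: the end results from the modules
-/

set_option autoImplicit false

namespace MP7K

open MP7Z

theorem p2II (h6 : SixStmt) (hs : SSStmt) : IIStmt := by
  intro p _ Ω _ _ x G _ _ ψ hψ
  exact h6 p Ω x G ψ hψ (hs p Ω x G ψ hψ)

theorem p2BaseW (hEx : ExStmt) (hStg : StgStmt) (hRDW : RDWStmt) : BaseW := by
  intro p _ Ω _ _ x hst w hw
  have := hst.sepClosed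
  obtain ⟨y, hy⟩ := hEx p Ω w hw x
  obtain ⟨h1, h2⟩ := hStg p Ω x hst w hw y hy
  exact ⟨y, hy, h1, h2, fun G _ _ ψ hψ => hRDW p Ω x G ψ hψ w hw y hy h2⟩

theorem p2StartW (hII : IIStmt) : StartW := by
  intro p _ Ω _ _ x G _ _ ψ hψ
  obtain ⟨w, hw, y, hy, h, hRD⟩ := hII p Ω x G ψ hψ
  exact ⟨y, h, hRD⟩

end MP7K
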