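import Pool.Agent.Lib.MP_7f581e_K.Spec2

/-!
# C33, Part II: a proper subgroup containing all commutators is contained in a normal subgroup of
prime index
-/

set_option autoImplicit false

namespace MP7K

theorem p2Grp : GrpStmt := by
  intro G _ _ G' hne hcomm
  obtain ⟨N, hN, hle⟩ := (eq_top_or_exists_le_coatom G').resolve_left hne
  have hnorm : N.Normal := by
    refine ⟨fun n hn g => ?_⟩
    have h1 : g * n * g⁻¹ = g * n * g⁻¹ * n⁻¹ * n := by group
    rw [h1]
    exact N.mul_mem (hle (hcomm g n)) hn
  refine ⟨N, hnorm, ?_, hle⟩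
  let _ : CommGroup (G ⧸ N) :=
    { QuotientGroup.Quotient.group N with
      mul_comm := by
        intro a b
        obtain ⟨g, rfl⟩ := QuotientGroup.mk_surjective a
        obtain ⟨h, rfl⟩ := QuotientGroup.mk_surjective b
        have h2 : g⁻¹ * h⁻¹ * g * h ∈ N := by
          have h3 := hle (hcomm g⁻¹ h⁻¹)
          rwa [inv_inv, inv_inv] at h3
        change ((g * h : G) : G ⧸ N) = ((h * g : G) : G ⧸ N)
        rw [eq_comm, QuotientGroup.eq]
        have h4 : (h * g)⁻¹ * (g * h) = g⁻¹ * h⁻¹ * g * h := by group
        rw [h4]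
        exact h2 }
  have hsimple : IsSimpleGroup (G ⧸ N) := by
    have hnt : Nontrivial (G ⧸ N) := by
      obtain ⟨g, hg⟩ : ∃ g : G, g ∉ N := by
        by_contra h
        push Not at h
        exact hN.1 (by
          rw [eq_top_iff]
          exact fun x _ => h x)
      refine ⟨⟨(g : G ⧸ N), 1, ?_⟩⟩
      intro h
      exact hg ((QuotientGroup.eq_one_iff g).1 h)
    refine { hnt with eq_bot_or_eq_top_of_normal := ?_ }
    intro H _
    have h1 : N ≤ H.comap (QuotientGroup.mk' N) := by
      intro n hn
      rw [Subgroup.mem_comap, QuotientGroup.mk'_apply, (QuotientGroup.eq_one_iff n).2 hn]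
      exact H.one_mem
    rcases hN.le_iff.1 h1 with h2 | h2
    · right
      rw [eq_top_iff]
      intro x _
      obtain ⟨g, rfl⟩ := QuotientGroup.mk_surjective x
      have h3 : g ∈ H.comap (QuotientGroup.mk' N) := by
        rw [h2]
        exact Subgroup.mem_top g
      exact h3
    · left
      rw [eq_bot_iff]
      intro x hx
      obtain ⟨g, rfl⟩ := QuotientGroup.mk_surjective x
      have h3 : g ∈ H.comap (QuotientGroup.mk' N) := hx
      rw [h2] at h3
      rw [Subgroup.mem_bot]
      exact (QuotientGroup.eq_one_iff g).2 h3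
  exact IsSimpleGroup.prime_card

end MP7K
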