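import Pool.Agent.Lib.MP_7f581e_K.Spec2
import Pool.Agent.Lib.MP_7f581e_K.Lin
import Pool.Agent.Lib.MP_7f581e_Z.BR.Main

/-!
# C33 (MP_7f581e_nt), Part II, InA: inertia at a nonrational point
-/

set_option autoImplicit false

namespace MP7K

open MP7Z Polynomial

namespace P2InA

variable {p : ℕ} [Fact p.Prime] {Ω : Type} [Field Ω] [Algebra (ZMod p) Ω]

theorem algmap_pow (c : ZMod p) : (algebraMap (ZMod p) Ω c) ^ p = algebraMap (ZMod p) Ω c := by
  rw [← map_pow, ZMod.pow_card]

theorem lin_pow (l : (ZMod p)[X]) (b : Ω) : (lin p l b) ^ p = lin p l (b ^ p) := by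
  have h1 := Lin.lin_comm (F := Ω) X l b
  rwa [Lin.lin_X, Lin.lin_X] at h1

end P2InA

open P2InA in
theorem p2InA (hInP : InPStmt) (hInL : InLStmt) : InAStmt := by
  intro p _ Ω _ _ x hx a ha y hy V hV c hc hcp hcx
  have hp : p.Prime := Fact.out
  have hch : CharP Ω p := charP_of_injective_algebraMap (algebraMap (ZMod p) Ω).injective p
  have hc0 : c ≠ 0 := by
    rintro rfl
    exact hcp (zero_pow hp.ne_zero)
  cases a with
  | tr t =>
    change y + algebraMap (ZMod p) Ω t = x at hy
    refine ⟨c - algebraMap (ZMod p) Ω t, sub_mem hc ((Cst p Ω).algebraMap_mem t), ?_, ?_, ?_⟩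
    · intro h
      apply hcp
      rw [sub_pow_char, algmap_pow] at h
      exact sub_left_injective h
    · have h1 : y - (c - algebraMap (ZMod p) Ω t) = x - c := by
        rw [← hy]
        ring
      rw [h1]
      exact hcx
    · intro γ hγ
      obtain ⟨hγx, -⟩ := Subgroup.mem_inf.1 hγ
      rw [mem_Gx] at hγx
      have h1 : y = x - algebraMap (ZMod p) Ω t := by
        rw [← hy]
        ring
      rw [h1, map_sub, hγx, AlgEquiv.commutes]
  | inv =>
    change y⁻¹ = x at hy
    have hyx : y = x⁻¹ := by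
      rw [← hy, inv_inv]
    have hvc : V.valuation c = 1 := ResAux.val_const hc hc0 V
    have hvx : V.valuation x = 1 := by
      have h1 : V.valuation (x - c) < V.valuation c := by rwa [hvc]
      have h2 := Valuation.map_add_eq_of_lt_right _ h1
      rwa [sub_add_cancel, hvc] at h2
    have hx0 : x ≠ 0 := by
      rintro rfl
      rw [map_zero] at hvx
      exact zero_ne_one hvx
    refine ⟨c⁻¹, inv_mem hc, ?_, ?_, ?_⟩
    · intro h
      apply hcp
      rw [inv_pow] at h
      exact inv_injective h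
    · have h1 : y - c⁻¹ = -((x - c) * (x * c)⁻¹) := by
        rw [hyx]
        field_simp
        ring
      rw [h1, Valuation.map_neg, map_mul, map_inv₀, map_mul, hvx, hvc, one_mul, inv_one, mul_one]
      exact hcx
    · intro γ hγ
      obtain ⟨hγx, -⟩ := Subgroup.mem_inf.1 hγ
      rw [mem_Gx] at hγx
      rw [hyx, map_inv₀, hγx]
  | pow n =>
    change y ^ n = x at hy
    obtain ⟨b, hb, hbc, hyb, hγ⟩ := hInP p Ω x hx n ha y hy V hV c hc hc0 hcx
    refine ⟨b, hb, ?_, hyb, hγ⟩
    intro h
    apply hcp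
    rw [← hbc, ← pow_mul, mul_comm, pow_mul, h]
  | add l =>
    change lin p l y = x at hy
    obtain ⟨b, hb, hbc, hyb, hγ⟩ := hInL p Ω x hx l ha y hy V hV c hc hcx
    refine ⟨b, hb, ?_, hyb, hγ⟩
    intro h
    apply hcp
    rw [← hbc, lin_pow, h]

end MP7K
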