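import Pool.Agent.Lib.MP_7f581e_K.Spec2
import Pool.Agent.Lib.MP_7f581e_K.Lin
import Pool.Agent.Lib.MP_7f581e_Z.BR.Main

/-!
# C33 (MP_7f581e_nt), Part II, InL: inertia and additive polynomials
-/

set_option autoImplicit false

namespace MP7K

open MP7Z Polynomial

namespace P2InL

variable {p : ℕ} [Fact p.Prime] {Ω : Type} [Field Ω] [Algebra (ZMod p) Ω]

theorem coe_mem_cst (c : ZMod p) : algebraMap (ZMod p) Ω c ∈ Cst p Ω :=
  (Cst p Ω).algebraMap_mem c

theorem val_coe_le (V : ValuationSubring Ω) (c : ZMod p) :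
    V.valuation (algebraMap (ZMod p) Ω c) ≤ 1 :=
  (V.valuation_le_one_iff _).2 (ResAux.val_le (coe_mem_cst c) V)

theorem cst_eq_zero (V : ValuationSubring Ω) {k : Ω} (hk : k ∈ Cst p Ω)
    (h : V.valuation k < 1) : k = 0 := by
  by_contra h0
  rw [ResAux.val_const hk h0 V] at h
  exact lt_irrefl _ h

theorem lin_mem_cst (l : (ZMod p)[X]) {b : Ω} (hb : b ∈ Cst p Ω) : lin p l b ∈ Cst p Ω := by
  rw [Lin.lin_eq_sum]
  exact sum_mem fun i _ => mul_mem (coe_mem_cst _) (pow_mem hb _)

theorem val_lin_lt (V : ValuationSubring Ω) (l : (ZMod p)[X]) {z : Ω} (hz : V.valuation z < 1) :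
    V.valuation (lin p l z) < 1 := by
  have hp : p.Prime := Fact.out
  rw [Lin.lin_eq_sum]
  refine Valuation.map_sum_lt _ one_ne_zero fun i _ => ?_
  rw [map_mul, map_pow]
  calc V.valuation (algebraMap (ZMod p) Ω (l.coeff i)) * V.valuation z ^ (p ^ i)
      ≤ 1 * V.valuation z ^ (p ^ i) := by
        gcongr
        exact val_coe_le V _
    _ < 1 := by
        rw [one_mul]
        exact pow_lt_one₀ zero_le hz (pow_pos hp.pos i).ne'

theorem mem_of_lin (V : ValuationSubring Ω) {l : (ZMod p)[X]} (hl : l ≠ 0) {y : Ω}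
    (h : lin p l y ∈ V) : y ∈ V := by
  have hp : p.Prime := Fact.out
  by_contra hy
  rw [← V.valuation_le_one_iff, not_le] at hy
  rw [← V.valuation_le_one_iff] at h
  have hy0 : 0 < V.valuation y := lt_trans zero_lt_one hy
  rw [Lin.lin_eq_sum, Finset.sum_range_succ] at h
  have hlead : V.valuation (algebraMap (ZMod p) Ω (l.coeff l.natDegree) * y ^ (p ^ l.natDegree)) =
      V.valuation y ^ (p ^ l.natDegree) := by
    rw [map_mul, map_pow, ResAux.val_const (coe_mem_cst _) _ V, one_mul]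
    rw [Ne, map_eq_zero]
    exact leadingCoeff_ne_zero.2 hl
  have hlow : V.valuation (∑ i ∈ Finset.range l.natDegree,
      algebraMap (ZMod p) Ω (l.coeff i) * y ^ (p ^ i)) < V.valuation y ^ (p ^ l.natDegree) := by
    refine Valuation.map_sum_lt _ (pow_ne_zero _ hy0.ne') fun i hi => ?_
    rw [Finset.mem_range] at hi
    rw [map_mul, map_pow]
    calc V.valuation (algebraMap (ZMod p) Ω (l.coeff i)) * V.valuation y ^ (p ^ i)
        ≤ 1 * V.valuation y ^ (p ^ i) := by
          gcongr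
          exact val_coe_le V _
      _ < V.valuation y ^ (p ^ l.natDegree) := by
          rw [one_mul]
          exact pow_lt_pow_right₀ hy (Nat.pow_lt_pow_right hp.one_lt hi)
  rw [← hlead] at hlow
  rw [Valuation.map_add_eq_of_lt_right _ hlow, hlead] at h
  exact absurd (one_lt_pow₀ hy (pow_pos hp.pos l.natDegree).ne') (not_lt.2 h)

end P2InL

open P2InL in
theorem p2InL (hLin : LinStmt) : InLStmt := by
  intro p _ Ω _ _ x hx l hl0 y hy V hV c hc hcx
  have hp : p.Prime := Fact.out
  have hl : l ≠ 0 := by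
    rintro rfl
    exact hl0 (coeff_zero 0)
  obtain ⟨-, -, hres, -⟩ := br_res p Ω x hx V hV
  have hxV : x ∈ V := by
    have h1 : (x - c) + c ∈ V :=
      V.add_mem _ _ ((V.valuation_le_one_iff _).1 hcx.le) (ResAux.val_le hc V)
    rwa [sub_add_cancel] at h1
  have hyV : y ∈ V := mem_of_lin V hl (by rw [hy]; exact hxV)
  obtain ⟨b, hb, hyb, -⟩ := hres y hyV
  refine ⟨b, hb, ?_, hyb, ?_⟩
  · have h1 : V.valuation (x - lin p l b) < 1 := by
      have h2 := val_lin_lt V l hyb
      rwa [map_sub, hy] at h2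
    have h3 : lin p l b - c = (x - c) - (x - lin p l b) := by ring
    have h4 : V.valuation (lin p l b - c) < 1 := by
      rw [h3]
      exact Valuation.map_sub_lt _ hcx h1
    exact sub_eq_zero.1 (cst_eq_zero V (sub_mem (lin_mem_cst l hb) hc) h4)
  · intro γ hγ
    obtain ⟨hγx, hγI⟩ := Subgroup.mem_inf.1 hγ
    rw [mem_Gx] at hγx
    have hcom : lin p l (γ y) = γ (lin p l y) := by
      rw [Lin.lin_eq_sum, Lin.lin_eq_sum, map_sum]
      refine Finset.sum_congr rfl fun i _ => ?_
      rw [map_mul, map_pow, AlgEquiv.commutes]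
    have hk0 : lin p l (γ y - y) = 0 := by
      rw [map_sub, hcom, hy, hγx, sub_self]
    obtain ⟨P, hP1, -, -, hP2, -⟩ := hLin p l hl
    have hP0 : P ≠ 0 := by
      rintro rfl
      rw [natDegree_zero] at hP1
      exact (pow_pos hp.pos l.natDegree).ne hP1
    have hkc : γ y - y ∈ Cst p Ω := by
      change _ ∈ algebraicClosure (ZMod p) Ω
      rw [mem_algebraicClosure_iff]
      exact ⟨P, hP0, by rw [← hP2 Ω, hk0]⟩
    have hkv : V.valuation (γ y - y) < 1 := by
      have h1 : γ y - y = γ (y - b) - (y - b) := by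
        rw [map_sub, hγI.1 b hb]
        ring
      rw [h1]
      exact Valuation.map_sub_lt _ (ResAux.dec_val hγI.2 hyb) hyb
    exact sub_eq_zero.1 (cst_eq_zero V hkc hkv)

end MP7K
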