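import Pool.Agent.Lib.MP_7f581e_K.Spec2
import Pool.Agent.Lib.MP_7f581e_Z.BR.Main
import Pool.Agent.Lib.MP_7f581e_Z.CS.Rot

/-!
# C33 P2/InP: inertia and `x = y ^ n` at a point `c ≠ 0`
-/

set_option autoImplicit false

namespace MP7K

open MP7Z Polynomial

namespace P2InP

variable {p : ℕ} [Fact p.Prime] {Ω : Type} [Field Ω] [Algebra (ZMod p) Ω]

theorem pow_sub_lt {V : ValuationSubring Ω} {y b : Ω} (hy : y ∈ V) (hb : b ∈ V)
    (h : V.valuation (y - b) < 1) (n : ℕ) : V.valuation (y ^ n - b ^ n) < 1 := by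
  obtain ⟨q, hq⟩ := sub_dvd_pow_sub_pow (⟨y, hy⟩ : V) (⟨b, hb⟩ : V) n
  have h1 := congrArg (fun t : V => (t : Ω)) hq
  simp only [AddSubgroupClass.coe_sub, SubmonoidClass.coe_pow, MulMemClass.coe_mul] at h1
  rw [h1, map_mul]
  have h2 : V.valuation (q : Ω) ≤ 1 := (V.valuation_le_one_iff _).2 q.2
  calc V.valuation (y - b) * V.valuation (q : Ω) ≤ V.valuation (y - b) * 1 := by gcongr
    _ < 1 := by rw [mul_one]; exact h

theorem add_lt {V : ValuationSubring Ω} {a b : Ω} (ha : V.valuation a < 1)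
    (hb : V.valuation b < 1) : V.valuation (a + b) < 1 :=
  lt_of_le_of_lt (V.valuation.map_add _ _) (max_lt ha hb)

theorem sub_lt {V : ValuationSubring Ω} {a b : Ω} (ha : V.valuation a < 1)
    (hb : V.valuation b < 1) : V.valuation (a - b) < 1 :=
  lt_of_le_of_lt (V.valuation.map_sub _ _) (max_lt ha hb)

end P2InP

open P2InP in
theorem p2InP : InPStmt := by
  intro p _ Ω _ _ x hx n hn y hy V hV c hc hc0 hxc
  obtain ⟨hR1, hR2, hR3, -⟩ := br_res p Ω x hx V hV
  have hp : p.Prime := Fact.out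
  have hn0 : n ≠ 0 := by
    rintro rfl
    rw [Nat.coprime_zero_left] at hn
    exact hp.one_lt.ne' hn
  have hxV : x ∈ V := by
    have h1 : x - c ∈ V := (V.valuation_le_one_iff _).1 hxc.le
    have h2 := V.add_mem _ _ h1 (hR1 c hc)
    rwa [sub_add_cancel] at h2
  have hyV : y ∈ V := (KumRM.pow_mem_iff hn0).1 (by rw [hy]; exact hxV)
  obtain ⟨b, hb, hyb, -⟩ := hR3 y hyV
  have hbc : b ^ n = c := by
    by_contra hne
    have h1 : V.valuation (c - b ^ n) = 1 :=
      hR2 _ ((Cst p Ω).sub_mem hc (pow_mem hb n)) (sub_ne_zero.2 (Ne.symm hne))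
    have h2 := pow_sub_lt hyV (hR1 b hb) hyb n
    rw [hy] at h2
    have h3 : c - b ^ n = (x - b ^ n) - (x - c) := by ring
    rw [h3] at h1
    exact (sub_lt h2 hxc).ne h1
  have hb0 : b ≠ 0 := by
    rintro rfl
    rw [zero_pow hn0] at hbc
    exact hc0 hbc.symm
  refine ⟨b, hb, hbc, hyb, ?_⟩
  rintro γ ⟨hγx, hγI⟩
  have hγx' : γ x = x := mem_Gx.1 hγx
  obtain ⟨hγc, hγD⟩ := hγI
  have hx0 : x ≠ 0 := by
    rintro rfl
    exact hx.transc isAlgebraic_zero
  have hy0 : y ≠ 0 := by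
    rintro rfl
    rw [zero_pow hn0] at hy
    exact hx0 hy.symm
  have hvy : V.valuation y = 1 := by
    by_contra hne
    have h1 : V.valuation y < 1 := lt_of_le_of_ne ((V.valuation_le_one_iff _).2 hyV) hne
    have h2 := sub_lt h1 hyb
    have h3 : y - (y - b) = b := by ring
    rw [h3, hR2 b hb hb0] at h2
    exact lt_irrefl _ h2
  have hζ : (γ y / y) ^ n = 1 := by
    rw [div_pow, ← map_pow, hy, hγx', div_self hx0]
  have hζc : γ y / y ∈ Cst p Ω := Rot_mem_cst (Nat.pos_of_ne_zero hn0) hζ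
  by_contra hne
  have hζ1 : γ y / y - 1 ≠ 0 := by
    intro h
    rw [sub_eq_zero, div_eq_one_iff_eq hy0] at h
    exact hne h
  have h1 : V.valuation (γ y / y - 1) = 1 :=
    hR2 _ ((Cst p Ω).sub_mem hζc (Cst p Ω).one_mem) hζ1
  have h2 : V.valuation (γ (y - b)) < 1 := ResAux.dec_val hγD hyb
  rw [map_sub, hγc b hb] at h2
  have h3 := sub_lt h2 hyb
  have h4 : γ y - b - (y - b) = (γ y / y - 1) * y := by
    field_simp
    ring
  rw [h4, map_mul, h1, hvy, mul_one] at h3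
  exact lt_irrefl _ h3

end MP7K
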