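import Pool.Agent.Lib.MP_7f581e_K.Spec2

/-!
# C33, Part II, KGen: Kummer generators
-/

set_option autoImplicit false

namespace MP7K

/-- Kummer generators -/
theorem p2KGen : KGenStmt := by
  intro K _ τ ℓ hℓ hℓK ζ hζ hτζ hτ hf
  obtain ⟨f, hf⟩ := hf
  have hζ0 : ζ ≠ 0 := hζ.ne_zero hℓ.ne_zero
  have hpos : 0 < ℓ := hℓ.pos
  let r : ℕ → K := fun i => ∑ j ∈ Finset.range ℓ, ζ⁻¹ ^ (i * j) * (τ ^ j) f
  have hstep : ∀ j : ℕ, τ ((τ ^ j) f) = (τ ^ (j + 1)) f := by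
    intro j
    rw [pow_succ']
    rfl
  have hr : ∀ i, τ (r i) = ζ ^ i * r i := by
    intro i
    have h1 : τ (r i) = ζ ^ i * ∑ j ∈ Finset.range ℓ, ζ⁻¹ ^ (i * (j + 1)) * (τ ^ (j + 1)) f := by
      rw [map_sum, Finset.mul_sum]
      refine Finset.sum_congr rfl fun j _ => ?_
      have e : ζ ^ i * ζ⁻¹ ^ (i * (j + 1)) = ζ⁻¹ ^ (i * j) := by
        rw [mul_add, mul_one, pow_add, mul_comm (ζ⁻¹ ^ (i * j)), ← mul_assoc, ← mul_pow,
          mul_inv_cancel₀ hζ0, one_pow, one_mul]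
      rw [map_mul, map_pow, map_inv₀, hτζ, hstep, ← mul_assoc, e]
    have h2 : ∑ j ∈ Finset.range ℓ, ζ⁻¹ ^ (i * (j + 1)) * (τ ^ (j + 1)) f = r i := by
      have h3 := Finset.sum_range_succ' (fun j => ζ⁻¹ ^ (i * j) * (τ ^ j) f) ℓ
      have h4 := Finset.sum_range_succ (fun j => ζ⁻¹ ^ (i * j) * (τ ^ j) f) ℓ
      have h5 : ζ⁻¹ ^ (i * ℓ) * (τ ^ ℓ) f = ζ⁻¹ ^ (i * 0) * (τ ^ 0) f := by
        rw [hτ, mul_comm i ℓ, pow_mul, inv_pow, hζ.pow_eq_one, inv_one, one_pow, mul_zero, pow_zero,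
          pow_zero]
        rfl
      rw [h4, h5] at h3
      exact (add_right_cancel h3).symm
    rw [h1, h2]
  by_cases hall : ∀ i, 0 < i → i < ℓ → r i = 0
  · exfalso
    have hsum : ∑ i ∈ Finset.range ℓ, r i = ℓ * f := by
      change ∑ i ∈ Finset.range ℓ, ∑ j ∈ Finset.range ℓ, ζ⁻¹ ^ (i * j) * (τ ^ j) f = _
      rw [Finset.sum_comm, Finset.sum_eq_single 0]
      · simp only [mul_zero, pow_zero, one_mul, Finset.sum_const, Finset.card_range, nsmul_eq_mul]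
        rfl
      · intro j hj hj0
        rw [← Finset.sum_mul]
        have hprim : IsPrimitiveRoot (ζ⁻¹ ^ j) ℓ := by
          apply hζ.inv.pow_of_coprime
          exact (Nat.coprime_of_lt_prime hj0 (Finset.mem_range.1 hj) hℓ).symm
        have h6 : ∑ i ∈ Finset.range ℓ, ζ⁻¹ ^ (i * j) = 0 := by
          rw [← hprim.geom_sum_eq_zero hℓ.one_lt]
          exact Finset.sum_congr rfl fun i _ => by rw [← pow_mul, mul_comm]
        rw [h6, zero_mul]
      · intro h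
        exact absurd (Finset.mem_range.2 hpos) h
    have h0 : r 0 = ℓ * f := by
      rw [← hsum, Finset.sum_eq_single 0]
      · intro i hi hi0
        exact hall i (Nat.pos_of_ne_zero hi0) (Finset.mem_range.1 hi)
      · intro h
        exact absurd (Finset.mem_range.2 hpos) h
    have h7 := hr 0
    rw [h0, pow_zero, one_mul, map_mul, map_natCast] at h7
    exact hf (mul_left_cancel₀ hℓK h7)
  · push Not at hall
    obtain ⟨i, hi0, hiℓ, hri⟩ := hall
    exact ⟨r i, i, hri, hr i, hζ.pow_ne_one_of_pos_of_lt hi0.ne' hiℓ⟩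

end MP7K
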