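import Pool.Agent.Lib.MP_7f581e_K.Spec2

/-!
# C33, Part II, KPow: functions on the line whose orders are divisible by `ℓ`
-/

set_option autoImplicit false

namespace MP7K

open MP7Z

namespace P2KPow

variable {𝕜 K₀ : Type} [Field 𝕜] [IsAlgClosed 𝕜] [Field K₀] [Algebra 𝕜 K₀]

theorem pord_prod (w : Place 𝕜 K₀) {ι : Type*} (S : Finset ι) (g : ι → K₀) (hg : ∀ i, g i ≠ 0) :
    w.pord (∏ i ∈ S, g i) = ∑ i ∈ S, w.pord (g i) := by
  classical
  induction S using Finset.induction_on with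
  | empty => simp [w.pord_one]
  | insert a S ha ih =>
    rw [Finset.prod_insert ha, Finset.sum_insert ha,
      w.pord_mul (hg a) (Finset.prod_ne_zero_iff.2 fun i _ => hg i), ih]

theorem ord_nonneg_iff (w : Place 𝕜 K₀) {f : K₀} (hf : f ≠ 0) : 0 ≤ w.ord f ↔ 0 ≤ w.pord f := by
  rw [w.le_pord_iff hf]
  rfl

end P2KPow

open P2KPow in
/-- functions on the line whose orders are divisible by `ℓ` are powers -/
theorem p2KPow (hRat : RatStmt) : KPowStmt := by
  classical
  intro 𝕜 K₀ _ _ _ _ _ x hx htop ℓ hℓ f hf hdvd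
  obtain ⟨h1, h2, -⟩ := hRat 𝕜 K₀ x hx htop
  have hfin : {v : Place 𝕜 K₀ | v.ord f ≠ 0 ∧ 0 ≤ v.ord x}.Finite :=
    (finite_ord_ne hf).subset fun v hv => hv.1
  let S : Finset (Place 𝕜 K₀) := hfin.toFinset
  let u : Place 𝕜 K₀ → K₀ := fun v => x - algebraMap 𝕜 K₀ (v.ev x)
  have hu : ∀ v, u v ≠ 0 := by
    intro v h
    have h' : x = algebraMap 𝕜 K₀ (v.ev x) := sub_eq_zero.1 h
    apply hx
    rw [h']
    exact isAlgebraic_algebraMap _
  let h : K₀ := ∏ v ∈ S, u v ^ (v.pord f / ℓ)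
  have huz : ∀ v : Place 𝕜 K₀, u v ^ (v.pord f / ℓ) ≠ 0 := fun v => zpow_ne_zero _ (hu v)
  have hh : h ≠ 0 := Finset.prod_ne_zero_iff.2 fun v _ => huz v
  have hhl : h ^ ℓ ≠ 0 := pow_ne_zero _ hh
  let f' : K₀ := f / h ^ ℓ
  have hf' : f' ≠ 0 := div_ne_zero hf hhl
  have hord : ∀ w : Place 𝕜 K₀, 0 ≤ w.ord x → w.pord f' = 0 := by
    intro w hw
    have h3 : w.pord h = w.pord f / ℓ := by
      rw [pord_prod w S _ huz]
      have h4 : ∀ v ∈ S, w.pord (u v ^ (v.pord f / ℓ)) = if v = w then w.pord f / ℓ else 0 := by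
        intro v hv
        have hv' : 0 ≤ v.ord x := ((Set.Finite.mem_toFinset _).1 hv).2
        rw [w.pord_zpow (hu v)]
        split_ifs with hvw
        · subst hvw
          rw [(h1 v hv').1, mul_one]
        · rw [(h1 v hv').2 w (Ne.symm hvw) hw, mul_zero]
      rw [Finset.sum_congr rfl h4, Finset.sum_ite_eq' S w]
      split_ifs with hwS
      · rfl
      · have h5 : w.ord f = 0 := by
          by_contra hne
          exact hwS ((Set.Finite.mem_toFinset _).2 ⟨hne, hw⟩)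
        have h6 : w.pord f = 0 := by
          rw [w.pord_eq_iff hf, h5]
          rfl
        rw [h6, Int.zero_ediv]
    change w.pord (f / h ^ ℓ) = 0
    rw [w.pord_div hf hhl, w.pord_pow hh, h3, Int.mul_ediv_cancel' (hdvd w), sub_self]
  have hconst : ∃ c : 𝕜, f' = algebraMap 𝕜 K₀ c := by
    by_cases hall : ∀ w : Place 𝕜 K₀, 0 ≤ w.pord f'
    · exact exists_const_of_nonneg fun w => (ord_nonneg_iff w hf').2 (hall w)
    · push Not at hall
      obtain ⟨v, hv⟩ := hall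
      have hvx : v.ord x < 0 := by
        by_contra hne
        rw [hord v (not_lt.1 hne)] at hv
        exact lt_irrefl _ hv
      have h3 : ∀ w : Place 𝕜 K₀, 0 ≤ w.ord f'⁻¹ := by
        intro w
        rw [ord_nonneg_iff w (inv_ne_zero hf'), w.pord_inv hf']
        rcases le_or_gt 0 (w.ord x) with hw | hw
        · rw [hord w hw, neg_zero]
        · rw [h2 v w hvx hw]
          omega
      obtain ⟨c, hc⟩ := exists_const_of_nonneg h3
      exact ⟨c⁻¹, by rw [map_inv₀, ← hc, inv_inv]⟩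
  obtain ⟨c, hc⟩ := hconst
  obtain ⟨d, hd⟩ := IsAlgClosed.exists_pow_nat_eq c hℓ
  refine ⟨algebraMap 𝕜 K₀ d * h, ?_⟩
  rw [mul_pow, ← map_pow, hd, ← hc]
  exact div_mul_cancel₀ f hhl

end MP7K
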