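import Pool.Agent.Lib.MP_7f581e_K.Spec2

/-!
# C33 (MP_7f581e_nt), Part II, Keep: ramification at nonrational points is preserved
-/

set_option autoImplicit false

namespace MP7K

open MP7Z Polynomial

theorem p2Keep (hStg : StgStmt) (hInA : InAStmt) : KeepStmt := by
  intro p _ Ω _ _ x hx G _ ψ N c hc hram w
  induction w generalizing x c with
  | nil =>
    intro _ y hy h
    change y = x at hy
    subst hy
    exact ⟨c, hc, hram⟩
  | cons a w ih =>
    intro hw y hy h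
    have ha : a.Ok := hw a (List.mem_cons_self)
    have hw' : OkW w := fun b hb => hw b (List.mem_cons_of_mem _ hb)
    obtain ⟨z, hz⟩ : ∃ z, z = ev w y := ⟨_, rfl⟩
    have hzx : a.ev z = x := by
      rw [hz]
      exact hy
    obtain ⟨hsz, hle⟩ := hStg p Ω x hx [a] (by
      intro b hb
      rw [List.mem_singleton] at hb
      rw [hb]
      exact ha) z hzx
    obtain ⟨hsy, hle'⟩ := hStg p Ω z hsz w hw' y hz.symm
    obtain ⟨V, hV, hov, γ, hγI, hγN⟩ := hram
    obtain ⟨hcC, hcv⟩ := hov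
    obtain ⟨b, hb, hbp, hzb, hfix⟩ := hInA p Ω x hx a ha z hzx V hV c hcC hc hcv
    have hγz : (γ : Ω ≃ₐ[ZMod p] Ω) ∈ Gx p z :=
      mem_Gx.2 (hfix γ (Subgroup.mem_inf.2 ⟨γ.2, hγI⟩))
    have hram' : RamAt p z (rs hle ψ) N (some b) :=
      ⟨V, hV, ⟨hb, hzb⟩, ⟨γ, hγz⟩, hγI, hγN⟩
    obtain ⟨b', hb', h'⟩ := ih z hsz (rs hle ψ) b hbp hram' hw' y hz.symm hle'
    exact ⟨b', hb', h'⟩

end MP7K
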