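import Pool.Agent.Lib.MP_7f581e_K.Spec2
import Pool.Agent.Lib.MP_7f581e_K.Lin

set_option autoImplicit false

namespace MP7K

open MP7Z Polynomial

namespace P2Lin

/-- the additive polynomial with coefficients in the prime field -/
noncomputable def pol (p : ℕ) (l : (ZMod p)[X]) : (ZMod p)[X] :=
  ∑ i ∈ Finset.range (l.natDegree + 1), C (l.coeff i) * X ^ (p ^ i)

theorem coeff_pol {p : ℕ} [Fact p.Prime] (l : (ZMod p)[X]) :
    (pol p l).coeff (p ^ l.natDegree) = l.leadingCoeff := by
  have hp : 1 < p := (Fact.out : p.Prime).one_lt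
  rw [pol, finsetSum_coeff]
  simp only [coeff_C_mul, coeff_X_pow]
  rw [Finset.sum_eq_single l.natDegree]
  · simp
  · intro b _ hb
    rw [if_neg, mul_zero]
    intro hc
    exact hb (Nat.pow_right_injective hp hc).symm
  · intro hb
    exact absurd (Finset.mem_range.2 (Nat.lt_succ_self _)) hb

theorem natDegree_le {p : ℕ} [Fact p.Prime] (l : (ZMod p)[X]) :
    (pol p l).natDegree ≤ p ^ l.natDegree := by
  have hp : 0 < p := (Fact.out : p.Prime).pos
  refine natDegree_sum_le_of_forall_le _ _ fun i hi => ?_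
  refine (natDegree_C_mul_le _ _).trans ?_
  rw [natDegree_X_pow]
  exact Nat.pow_le_pow_right hp (by rw [Finset.mem_range] at hi; omega)

theorem derivative_pol {p : ℕ} [Fact p.Prime] (l : (ZMod p)[X]) :
    derivative (pol p l) = C (l.coeff 0) := by
  rw [pol, derivative_sum, Finset.sum_eq_single 0]
  · simp
  · intro i _ hi
    rw [derivative_C_mul, derivative_X_pow]
    have h1 : ((p ^ i : ℕ) : ZMod p) = 0 := by
      rw [Nat.cast_pow, CharP.cast_eq_zero, zero_pow hi]
    rw [h1]
    simp
  · intro h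
    exact absurd (Finset.mem_range.2 (Nat.succ_pos _)) h

end P2Lin

open P2Lin in
theorem p2Lin : LinStmt := by
  intro p _ l hl
  have hlc : l.leadingCoeff ≠ 0 := leadingCoeff_ne_zero.mpr hl
  have hdeg : (pol p l).natDegree = p ^ l.natDegree :=
    natDegree_eq_of_le_of_coeff_ne_zero (natDegree_le l) (by rw [coeff_pol]; exact hlc)
  refine ⟨pol p l, hdeg, ?_, derivative_pol l, ?_, ?_⟩
  · rw [leadingCoeff, hdeg, coeff_pol]
  · intro E _ _ y
    rw [Lin.lin_eq_sum, pol, map_sum]
    refine Finset.sum_congr rfl fun i _ => ?_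
    rw [map_mul, aeval_C, map_pow, aeval_X]
  · intro E _ _ σ y
    rw [Lin.lin_eq_sum, Lin.lin_eq_sum, map_sum]
    refine Finset.sum_congr rfl fun i _ => ?_
    rw [map_mul, AlgHom.commutes, map_pow]

end MP7K
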