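import Pool.Agent.Lib.MP_7f581e_K.Spec2

/-!
# C33 (MP_7f581e_nt), Part II, Mob: translations and inversion
-/

set_option autoImplicit false

namespace MP7K

open MP7Z

theorem p2Mob (hStg : StgStmt) : MobStmt := by
  intro p _ Ω _ _ x hx G _ ψ y h
  have key : (y + 1 = x ∨ y⁻¹ = x) → Gx p x ≤ Gx p y := by
    intro hyx γ hγ
    rw [mem_Gx] at hγ ⊢
    rcases hyx with hyx | hyx
    · rw [← hyx, map_add, map_one] at hγ
      exact add_right_cancel hγ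
    · rw [← hyx, map_inv₀] at hγ
      exact inv_injective hγ
  refine ⟨fun hyx hR => ⟨?_, ?_, ?_⟩, fun N => ⟨fun hyx c hc => ?_, fun hyx hc => ?_,
    fun hyx hc => ?_⟩⟩
  · rcases hyx with hyx | hyx
    · refine (hStg p Ω x hx [Atom.tr 1] ?_ y ?_).1
      · intro a ha
        rw [List.mem_singleton] at ha
        rw [ha]
        trivial
      · rw [ev_cons, ev_nil, Atom.ev, map_one]
        exact hyx
    · refine (hStg p Ω x hx [Atom.inv] ?_ y ?_).1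
      · intro a ha
        rw [List.mem_singleton] at ha
        rw [ha]
        trivial
      · rw [ev_cons, ev_nil, Atom.ev]
        exact hyx
  · obtain ⟨S, hS⟩ := hR.fin
    exact ⟨S, fun γ hγ => hS ⟨γ.1, h γ.2⟩ hγ⟩
  · intro g
    obtain ⟨γ, hγ, hg⟩ := hR.reg g
    exact ⟨⟨γ.1, key hyx γ.2⟩, hγ, hg⟩
  · obtain ⟨V, hV, hOv, γ, hγ, hγN⟩ := hc
    rw [Ov_some] at hOv
    refine ⟨V, hV, Ov_some.2 ⟨?_, ?_⟩, ⟨γ.1, key (Or.inl hyx) γ.2⟩, hγ, hγN⟩
    · exact sub_mem hOv.1 (one_mem _)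
    · have h1 : y - (c - 1) = x - c := by
        rw [← hyx]
        ring
      rw [h1]
      exact hOv.2
  · obtain ⟨V, hV, hOv, γ, hγ, hγN⟩ := hc
    rw [Ov_none] at hOv
    refine ⟨V, hV, Ov_none.2 ?_, ⟨γ.1, key (Or.inl hyx) γ.2⟩, hγ, hγN⟩
    intro hy
    apply hOv
    rw [← hyx]
    exact add_mem hy (one_mem _)
  · obtain ⟨V, hV, hOv, γ, hγ, hγN⟩ := hc
    rw [Ov_none] at hOv
    refine ⟨V, hV, Ov_some.2 ⟨zero_mem _, ?_⟩, ⟨γ.1, key (Or.inr hyx) γ.2⟩, hγ, hγN⟩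
    rw [sub_zero]
    have h1 : y = x⁻¹ := by rw [← hyx, inv_inv]
    rw [← V.valuation_le_one_iff, not_le] at hOv
    rw [h1, map_inv₀]
    exact inv_lt_one_of_one_lt₀ hOv

end MP7K
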