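import Pool.Agent.Lib.MP_7f581e_K.Spec2
import Pool.Agent.Lib.MP_7f581e_Z.CS.Rot

/-!
# C33 (MP_7f581e_nt), Part II, module PowO: `x = z ^ m` and ramification at `0` and infinity
-/

set_option autoImplicit false

namespace MP7K

open MP7Z Polynomial

/-- **PowO.** -/
theorem p2PowO : PowOStmt := by
  intro p _ Ω _ _ x hst G _ ψ N hN m hm hmN z hz h c hc hram
  have hp : p.Prime := Fact.out
  have hm0 : m ≠ 0 := by
    rintro rfl
    rw [Nat.coprime_zero_left] at hm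
    exact hp.one_lt.ne' hm
  have hx0 : x ≠ 0 := by
    rintro rfl
    exact hst.transc isAlgebraic_zero
  have hz0 : z ≠ 0 := by
    rintro rfl
    rw [zero_pow hm0] at hz
    exact hx0 hz.symm
  obtain ⟨V, hV, hov, γ, hγI, hγN⟩ := hram
  have hov' : Ov p V z c := by
    rcases hc with rfl | rfl
    · intro hzV
      apply hov
      rw [← hz]
      exact pow_mem hzV m
    · refine ⟨hov.1, ?_⟩
      have h1 := hov.2
      rw [sub_zero] at h1 ⊢
      rw [← hz, map_pow] at h1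
      by_contra h2
      rw [not_lt] at h2
      exact absurd h1 (not_lt.2 (one_le_pow₀ h2))
  -- the root of unity
  have hγx : (γ : Ω ≃ₐ[ZMod p] Ω) x = x := mem_Gx.1 γ.2
  obtain ⟨ζ, hζ⟩ : ∃ ζ, ζ = (γ : Ω ≃ₐ[ZMod p] Ω) z / z := ⟨_, rfl⟩
  have hζz : (γ : Ω ≃ₐ[ZMod p] Ω) z = ζ * z := by
    rw [hζ, div_mul_cancel₀ _ hz0]
  have hζm : ζ ^ m = 1 := by
    rw [hζ, div_pow, ← map_pow, hz, hγx, div_self hx0]
  have hγζ : (γ : Ω ≃ₐ[ZMod p] Ω) ζ = ζ := hγI.1 ζ (Rot_mem_cst (Nat.pos_of_ne_zero hm0) hζm)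
  have hγm : ((γ ^ m : Gx p x) : Ω ≃ₐ[ZMod p] Ω) ∈ Gx p z := by
    rw [mem_Gx, Subgroup.coe_pow, Rot_pow_apply hγζ hζz, hζm, one_mul]
  refine ⟨V, hV, hov', ⟨_, hγm⟩, ?_, ?_⟩
  · change ((γ ^ m : Gx p x) : Ω ≃ₐ[ZMod p] Ω) ∈ Inert p V
    rw [Subgroup.coe_pow]
    exact pow_mem hγI m
  · intro hmem
    apply hγN
    have h1 : rs h ψ ⟨_, hγm⟩ = (ψ γ) ^ m := by
      rw [← map_pow]
      rfl
    rw [h1] at hmem
    have h2 : (ψ γ) ^ N.index ∈ N := Subgroup.pow_index_mem N (ψ γ)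
    have h3 : (QuotientGroup.mk' N (ψ γ)) ^ m = 1 := by
      rw [← map_pow]
      exact (QuotientGroup.eq_one_iff _).2 hmem
    have h4 : (QuotientGroup.mk' N (ψ γ)) ^ N.index = 1 := by
      rw [← map_pow]
      exact (QuotientGroup.eq_one_iff _).2 h2
    have h5 : orderOf (QuotientGroup.mk' N (ψ γ)) ∣ Nat.gcd m N.index :=
      Nat.dvd_gcd (orderOf_dvd_of_pow_eq_one h3) (orderOf_dvd_of_pow_eq_one h4)
    rw [hmN.gcd_eq_one, Nat.dvd_one, orderOf_eq_one_iff] at h5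
    exact (QuotientGroup.eq_one_iff _).1 h5

end MP7K
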