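import Pool.Agent.Lib.MP_7f581e_K.Spec2
import Pool.Agent.Lib.MP_7f581e_Z.BR.BC
import Pool.Agent.Lib.MP_7f581e_Z.CS.Rot

/-!
# C33 (MP_7f581e_nt), Part II: `x = z ^ m` preserves surjectivity
-/

set_option autoImplicit false

namespace MP7K

open MP7Z

namespace P2PowS

variable {p : ℕ} [Fact p.Prime] {Ω : Type} [Field Ω] [Algebra (ZMod p) Ω]

/-- the `m`-th power of an automorphism which fixes the constants and `x = z ^ m` fixes `z` -/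
theorem pow_fix {x z : Ω} {m : ℕ} (hm : 0 < m) (hz : z ^ m = x) (hx : x ≠ 0)
    {γ : Ω ≃ₐ[ZMod p] Ω} (hγ : γ ∈ geo p Ω) (hγx : γ x = x) : (γ ^ m) z = z := by
  have hz0 : z ≠ 0 := by
    rintro rfl
    rw [zero_pow hm.ne'] at hz
    exact hx hz.symm
  obtain ⟨ζ, hζ⟩ : ∃ ζ : Ω, ζ = γ z / z := ⟨_, rfl⟩
  have h1 : ζ ^ m = 1 := by
    rw [hζ, div_pow, ← map_pow, hz, hγx, div_self hx]
  have h2 : γ ζ = ζ := hγ ζ (Rot_mem_cst hm h1)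
  have h3 : γ z = ζ * z := by
    rw [hζ, div_mul_cancel₀ _ hz0]
  rw [Rot_pow_apply h2 h3, h1, one_mul]

end P2PowS

theorem p2PowS : PowSStmt := by
  intro p _ Ω _ _ x G _ _ ψ hR m hmp hmG z hz h
  have hm : 0 < m := by
    rcases Nat.eq_zero_or_pos m with h0 | h0
    · rw [h0, Nat.coprime_zero_left] at hmp
      exact absurd hmp (Fact.out : p.Prime).one_lt.ne'
    · exact h0
  have hx : x ≠ 0 := by
    intro h0
    apply hR.stage.transc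
    rw [h0]
    exact isAlgebraic_zero
  refine ⟨BC_stage hR.stage hz, ?_, ?_⟩
  · obtain ⟨S, hS⟩ := hR.fin
    exact ⟨S, fun γ hγ => hS ⟨γ, h γ.2⟩ hγ⟩
  · intro g
    obtain ⟨g₁, hg₁⟩ : ∃ g₁ : G, g₁ ^ m = g :=
      ⟨(powCoprime hmG.symm).symm g, (powCoprime hmG.symm).apply_symm_apply g⟩
    obtain ⟨γ, hγ, hγg⟩ := hR.reg g₁
    have hfix : ((γ : Ω ≃ₐ[ZMod p] Ω) ^ m) z = z :=
      P2PowS.pow_fix hm hz hx hγ (mem_Gx.1 γ.2)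
    refine ⟨⟨(γ : Ω ≃ₐ[ZMod p] Ω) ^ m, mem_Gx.2 hfix⟩, pow_mem hγ m, ?_⟩
    rw [rs_apply]
    have h1 : (⟨(γ : Ω ≃ₐ[ZMod p] Ω) ^ m, h (mem_Gx.2 hfix)⟩ : Gx p x) = γ ^ m := rfl
    rw [h1, map_pow, hγg, hg₁]

end MP7K
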