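import Pool.Agent.Lib.MP_7f581e_K.Spec2

/-!
# C33 (MP_7f581e_nt), Part II, RDW: the condition (RD) is preserved by all words
-/

set_option autoImplicit false

namespace MP7K

open MP7Z Polynomial

namespace P2RDW

variable {p : ℕ} [Fact p.Prime] {Ω : Type} [Field Ω] [Algebra (ZMod p) Ω]

theorem fin_rs {x y : Ω} {G : Type} [Group G] (h : Gx p y ≤ Gx p x) {ψ : Gx p x →* G}
    (hψ : FinLevel ψ) : FinLevel (rs h ψ) := by
  obtain ⟨S, hS⟩ := hψ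
  exact ⟨S, fun γ hγ => hS ⟨γ.1, h γ.2⟩ hγ⟩

/-- the image of the geometric part -/
def im {z : Ω} {G : Type} [Group G] (ψ : Gx p z →* G) : Subgroup G :=
  ((geo p Ω).comap (Gx p z).subtype).map ψ

theorem mem_im {z : Ω} {G : Type} [Group G] {ψ : Gx p z →* G} {g : G} :
    g ∈ im ψ ↔ ∃ γ : Gx p z, (γ : Ω ≃ₐ[ZMod p] Ω) ∈ geo p Ω ∧ ψ γ = g := by
  constructor
  · rintro ⟨γ, hγ, h⟩
    exact ⟨γ, hγ, h⟩
  · rintro ⟨γ, hγ, h⟩
    exact ⟨γ, hγ, h⟩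

theorem one (hStg : StgStmt) (hCom : ComStmt) (hInA : InAStmt) (hKeep : KeepStmt)
    (hGrp : GrpStmt) {x : Ω} {G : Type} [Group G] [Finite G] {ψ : Gx p x →* G}
    (hψ : RD p x ψ) (a : Atom p) (ha : a.Ok) {z : Ω} (hz : a.ev z = x) (h : Gx p z ≤ Gx p x) :
    RD p z (rs h ψ) := by
  have hok : OkW [a] := by
    intro b hb
    rw [List.mem_singleton] at hb
    rw [hb]
    exact ha
  have hev : ev [a] z = x := hz
  have hst : IsStage p x := hψ.stage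
  refine
    { stage := (hStg p Ω x hst [a] hok z hev).1
      fin := fin_rs h hψ.fin
      reg := ?_
      ram := ?_ }
  · by_cases htop : im (rs h ψ) = ⊤
    · intro g
      have hg : g ∈ im (rs h ψ) := by rw [htop]; exact Subgroup.mem_top g
      exact mem_im.1 hg
    · exfalso
      obtain ⟨N, hN, hNp, hle⟩ := hGrp G (im (rs h ψ)) htop (by
        intro g k
        obtain ⟨γ, hγg, rfl⟩ := hψ.reg g
        obtain ⟨δ, hδg, rfl⟩ := hψ.reg k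
        rw [mem_im]
        have hκ : ((γ : Ω ≃ₐ[ZMod p] Ω) * δ * (γ : Ω ≃ₐ[ZMod p] Ω)⁻¹ *
            (δ : Ω ≃ₐ[ZMod p] Ω)⁻¹) ∈ Gx p z := by
          rw [mem_Gx]
          have hc := hCom p Ω x hst a ha z hz (γ : Ω ≃ₐ[ZMod p] Ω)⁻¹
            (Subgroup.mem_inf.2 ⟨inv_mem γ.2, inv_mem hγg⟩) (δ : Ω ≃ₐ[ZMod p] Ω)⁻¹ (Subgroup.mem_inf.2 ⟨inv_mem δ.2, inv_mem hδg⟩)
          change (γ : Ω ≃ₐ[ZMod p] Ω) ((δ : Ω ≃ₐ[ZMod p] Ω)
            ((γ : Ω ≃ₐ[ZMod p] Ω)⁻¹ ((δ : Ω ≃ₐ[ZMod p] Ω)⁻¹ z))) = z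
          rw [hc]
          have e1 : ∀ w, (δ : Ω ≃ₐ[ZMod p] Ω) ((δ : Ω ≃ₐ[ZMod p] Ω)⁻¹ w) = w := fun w =>
            AlgEquiv.apply_symm_apply _ w
          have e2 : ∀ w, (γ : Ω ≃ₐ[ZMod p] Ω) ((γ : Ω ≃ₐ[ZMod p] Ω)⁻¹ w) = w := fun w =>
            AlgEquiv.apply_symm_apply _ w
          rw [e1, e2]
        refine ⟨⟨_, hκ⟩, mul_mem (mul_mem (mul_mem hγg hδg) (inv_mem hγg)) (inv_mem hδg), ?_⟩
        rw [rs_apply]
        have : (⟨(γ : Ω ≃ₐ[ZMod p] Ω) * δ * (γ : Ω ≃ₐ[ZMod p] Ω)⁻¹ *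
            (δ : Ω ≃ₐ[ZMod p] Ω)⁻¹, h hκ⟩ : Gx p x) = γ * δ * γ⁻¹ * δ⁻¹ := rfl
        rw [this, map_mul, map_mul, map_mul, map_inv, map_inv])
      obtain ⟨c, hc, V, hV, hov, γ, hγ, hγN⟩ := hψ.ram N hN hNp
      obtain ⟨b, -, -, -, hfix⟩ := hInA p Ω x hst a ha z hz V hV c hov.1 hc hov.2
      have hγz : (γ : Ω ≃ₐ[ZMod p] Ω) z = z := hfix γ ⟨γ.2, hγ⟩
      refine hγN (hle ?_)
      rw [mem_im]
      exact ⟨⟨γ, mem_Gx.2 hγz⟩, hγ.1, rfl⟩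
  · intro N hN hNp
    obtain ⟨c, hc, hram⟩ := hψ.ram N hN hNp
    exact hKeep p Ω x hst G ψ N c hc hram [a] hok z hev h

end P2RDW

theorem p2RDW (hStg : StgStmt) (hCom : ComStmt) (hInA : InAStmt) (hKeep : KeepStmt)
    (hGrp : GrpStmt) : RDWStmt := by
  intro p _ Ω _ _ x G _ _ ψ hψ w
  induction w generalizing x with
  | nil =>
    intro _ y hy h
    obtain rfl : y = x := hy
    rwa [rs_self]
  | cons a w ih =>
    intro hw y hy h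
    have ha : a.Ok := hw a (List.mem_cons_self ..)
    have hw' : OkW w := fun b hb => hw b (List.mem_cons_of_mem _ hb)
    have hz : a.ev (ev w y) = x := hy
    have hok : OkW [a] := by
      intro b hb
      rw [List.mem_singleton] at hb
      rw [hb]
      exact ha
    have hst : IsStage p x := hψ.stage
    have h1 := hStg p Ω x hst [a] hok (ev w y) hz
    have h2 := P2RDW.one hStg hCom hInA hKeep hGrp hψ a ha hz h1.2
    have h3 := hStg p Ω (ev w y) h1.1 w hw' y rfl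
    have h4 := ih (ev w y) (rs h1.2 ψ) h2 hw' y rfl h3.2
    rwa [rs_rs] at h4

end MP7K
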