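import Pool.Agent.Lib.MP_7f581e_K.Spec2
import Pool.Agent.Lib.MP_7f581e_Z.BR.Main

/-!
# C33, Part II: the places of the rational function field `𝕜(x)`
-/

set_option autoImplicit false

namespace MP7K

open MP7Z IntermediateField

namespace P2Rat

variable {𝕜 K₀ : Type} [Field 𝕜] [IsAlgClosed 𝕜] [Field K₀] [Algebra 𝕜 K₀] [IsCurveField 𝕜 K₀]

/-- a generator has exactly one zero, which is simple -/
theorem star {u : K₀} (htop : adjoin 𝕜 {u} = ⊤) (hut : Transcendental 𝕜 u) {v : Place 𝕜 K₀}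
    (hv : 0 < v.ord u) : v.pord u = 1 ∧ ∀ w : Place 𝕜 K₀, 0 < w.ord u → w = v := by
  classical
  have hsep : Algebra.IsSeparable (adjoin 𝕜 {u}) K₀ := by
    rw [htop]
    exact ⟨fun z => isSeparable_algebraMap (⟨z, mem_top⟩ : (⊤ : IntermediateField 𝕜 K₀))⟩
  obtain ⟨S, hS, hsum⟩ := sum_zeros hut
  rw [htop, IntermediateField.finrank_top] at hsum
  have hu0 : u ≠ 0 := by
    rintro rfl
    exact hut isAlgebraic_zero
  have hpos : ∀ w ∈ S, 0 < (w.ord u).untopD 0 := by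
    intro w hw
    have h1 : (0 : ℤ) < w.pord u := by
      rw [w.lt_pord_iff hu0]
      exact (hS w).1 hw
    exact h1
  have hvS : v ∈ S := (hS v).2 hv
  have h1 : (v.ord u).untopD 0 ≤ ∑ w ∈ S, (w.ord u).untopD 0 :=
    Finset.single_le_sum (fun w hw => (hpos w hw).le) hvS
  have h2 := hpos v hvS
  push_cast at hsum
  refine ⟨?_, ?_⟩
  · have h3 : v.pord u = (v.ord u).untopD 0 := rfl
    rw [h3]
    omega
  · intro w hw
    by_contra hne
    have hwS : w ∈ S := (hS w).2 hw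
    have h4 : ∑ a ∈ ({w, v} : Finset (Place 𝕜 K₀)), (a.ord u).untopD 0 ≤
        ∑ a ∈ S, (a.ord u).untopD 0 := by
      apply Finset.sum_le_sum_of_subset_of_nonneg
      · intro a ha
        rcases Finset.mem_insert.1 ha with rfl | ha
        · exact hwS
        · rw [Finset.mem_singleton.1 ha]
          exact hvS
      · intro a ha _
        exact (hpos a ha).le
    rw [Finset.sum_pair hne] at h4
    have h5 := hpos w hwS
    omega

omit [IsAlgClosed 𝕜] [IsCurveField 𝕜 K₀] in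
theorem transc_sub {x : K₀} (hx : Transcendental 𝕜 x) (c : 𝕜) :
    Transcendental 𝕜 (x - algebraMap 𝕜 K₀ c) := by
  intro h
  apply hx
  have h1 := h.add (isAlgebraic_algebraMap c)
  rwa [sub_add_cancel] at h1

theorem star_sub {x : K₀} (htop : adjoin 𝕜 {x} = ⊤) (hx : Transcendental 𝕜 x) (c : 𝕜)
    {v : Place 𝕜 K₀} (hv : 0 < v.ord (x - algebraMap 𝕜 K₀ c)) :
    v.pord (x - algebraMap 𝕜 K₀ c) = 1 ∧
      ∀ w : Place 𝕜 K₀, 0 < w.ord (x - algebraMap 𝕜 K₀ c) → w = v :=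
  star (by rw [adjoin_sub_const, htop]) (transc_sub hx c) hv

theorem star_inv {x : K₀} (htop : adjoin 𝕜 {x} = ⊤) (hx : Transcendental 𝕜 x)
    {v : Place 𝕜 K₀} (hv : 0 < v.ord x⁻¹) :
    v.pord x⁻¹ = 1 ∧ ∀ w : Place 𝕜 K₀, 0 < w.ord x⁻¹ → w = v := by
  refine star ?_ ?_ hv
  · rw [eq_top_iff, ← htop, adjoin_simple_le_iff]
    have h1 := inv_mem (mem_adjoin_simple_self 𝕜 x⁻¹)
    rwa [inv_inv] at h1
  · intro h
    apply hx
    have h1 := h.inv
    rwa [inv_inv] at h1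

omit [IsCurveField 𝕜 K₀] in
theorem inv_pos_of_neg {x : K₀} (hx0 : x ≠ 0) {v : Place 𝕜 K₀} (hv : v.ord x < 0) :
    0 < v.ord x⁻¹ := by
  have h1 : v.pord x < 0 := by
    by_contra h
    push Not at h
    exact absurd ((v.le_pord_iff hx0 0).1 h) (not_le.2 hv)
  have h2 : (0 : ℤ) < v.pord x⁻¹ := by
    rw [v.pord_inv hx0]
    omega
  exact (v.lt_pord_iff (inv_ne_zero hx0) 0).1 h2

end P2Rat

open P2Rat in
theorem p2Rat : RatStmt := by
  intro 𝕜 K₀ _ _ _ _ _ x hx htop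
  have hx0 : x ≠ 0 := by
    rintro rfl
    exact hx isAlgebraic_zero
  have hsub0 : ∀ c : 𝕜, x - algebraMap 𝕜 K₀ c ≠ 0 := by
    intro c h
    exact transc_sub hx c (by rw [h]; exact isAlgebraic_zero)
  have h1 : ∀ v : Place 𝕜 K₀, 0 ≤ v.ord x → v.pord (x - algebraMap 𝕜 K₀ (v.ev x)) = 1 ∧
      ∀ w : Place 𝕜 K₀, w ≠ v → 0 ≤ w.ord x →
        w.pord (x - algebraMap 𝕜 K₀ (v.ev x)) = 0 := by
    intro v hv
    obtain ⟨h2, h3⟩ := star_sub htop hx (v.ev x) (v.ev_spec hv)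
    refine ⟨h2, fun w hwv hw => ?_⟩
    have h4 : 0 ≤ w.ord (x - algebraMap 𝕜 K₀ (v.ev x)) :=
      le_trans (le_min hw (w.const _)) (AddValuation.map_sub w.ord _ _)
    have h5 : ¬ 0 < w.ord (x - algebraMap 𝕜 K₀ (v.ev x)) := fun h => hwv (h3 w h)
    rw [w.pord_eq_iff (hsub0 _)]
    exact le_antisymm (not_lt.1 h5) h4
  have h2 : ∀ v w : Place 𝕜 K₀, v.ord x < 0 → w.ord x < 0 → w = v := by
    intro v w hv hw
    exact (star_inv htop hx (inv_pos_of_neg hx0 hv)).2 w (inv_pos_of_neg hx0 hw)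
  refine ⟨h1, h2, fun v => ?_⟩
  by_cases hv : 0 ≤ v.ord x
  · obtain ⟨h3, h4⟩ := h1 v hv
    refine ⟨(x - algebraMap 𝕜 K₀ (v.ev x))⁻¹, ?_, fun w hw => ?_⟩
    · rw [v.pord_inv (hsub0 _), h3]
    · rw [← WithTop.coe_zero, ← w.le_pord_iff (inv_ne_zero (hsub0 _)), w.pord_inv (hsub0 _)]
      by_cases hwx : 0 ≤ w.ord x
      · rw [h4 w hw hwx, neg_zero]
      · have h5 : w.pord x < 0 := by
          by_contra h
          push Not at h
          exact hwx ((w.le_pord_iff hx0 0).1 h)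
        by_cases hc : v.ev x = 0
        · rw [hc, map_zero, sub_zero]
          omega
        · have hc0 : algebraMap 𝕜 K₀ (v.ev x) ≠ 0 := (map_ne_zero _).2 hc
          have h6 := w.pord_add hx0 (neg_ne_zero.2 hc0) (by
            have h7 : w.pord (-algebraMap 𝕜 K₀ (v.ev x)) = 0 := by
              rw [← map_neg]
              exact w.pord_const _
            rw [h7]
            exact h5)
          rw [← sub_eq_add_neg] at h6
          rw [h6.2]
          omega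
  · have hv' : v.ord x < 0 := not_le.1 hv
    refine ⟨x, ?_, fun w hw => ?_⟩
    · have h3 := (star_inv htop hx (inv_pos_of_neg hx0 hv')).1
      rw [v.pord_inv hx0] at h3
      omega
    · by_contra h
      exact hw (h2 v w hv' (not_le.1 h))

end MP7K
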