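import Pool.Agent.Lib.MP_7f581e_K.Spec2
import Pool.Agent.Lib.MP_7f581e_Z.BR.Main
import Pool.Agent.Lib.MP_7f581e_Z.CS.Rot

/-!
# C33, Part II: geometric elements rotate the roots of `x`
-/

set_option autoImplicit false

namespace MP7K

open MP7Z Polynomial

namespace P2RotM

/-- the case of a prime exponent -/
theorem prime {p : ℕ} [Fact p.Prime] {Ω : Type} [Field Ω] [Algebra (ZMod p) Ω] {ℓ : ℕ}
    (hℓ : ℓ.Prime) (hne : ℓ ≠ p) {x : Ω} (hst : IsStage p x) {x' : Ω} (hx' : x' ^ ℓ = x) {ζ : Ω}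
    (hζ : ζ ^ ℓ = 1) : ∃ δ ∈ Gx p x ⊓ geo p Ω, δ x' = ζ * x' := by
  have : IsAlgClosed (Cst p Ω) := br_cst p Ω x hst
  have hK := BC_isLevel (p := p) x x 1 (pow_one x)
  obtain ⟨hcf, htr, -⟩ := (br_lvl p Ω x hst).1 _ hK
  have htr' : Transcendental (Cst p Ω) x := by
    intro h
    apply htr
    exact (isAlgebraic_algebraMap_iff (R := Cst p Ω)
      (A := Ω) (S := IntermediateField.adjoin (Cst p Ω) {x}) Subtype.val_injective).1 h
  obtain ⟨v, hv, -⟩ := exists_place_zero htr'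
  rw [Place.oz_eq_pord] at hv
  obtain ⟨V, hV, hb⟩ := br_abv p Ω x hst _ hK v
  have hg0 : IntermediateField.AdjoinSimple.gen (Cst p Ω) x ≠ 0 := by
    intro h0
    rw [h0] at hv
    simp [Place.pord] at hv
  obtain ⟨γ₀, ⟨hγK, hγD⟩, hγx'⟩ := br_kumR p Ω x hst _ hK V hV v hb ℓ hℓ hne
    (IntermediateField.AdjoinSimple.gen (Cst p Ω) x) hg0 (by
      rw [hv]
      intro h
      have h5 := Int.natAbs_dvd_natAbs.2 h
      rw [Int.natAbs_natCast, Int.natAbs_one, Nat.dvd_one] at h5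
      exact hℓ.one_lt.ne' h5) x' hx' ζ hζ
  have hγC : γ₀ ∈ geo p Ω := fun c hc =>
    hγK c ((IntermediateField.adjoin (Cst p Ω) {x}).algebraMap_mem (⟨c, hc⟩ : Cst p Ω))
  have hγx : γ₀ ∈ Gx p x := by
    rw [mem_Gx]
    exact hγK x hK.mem
  exact ⟨γ₀, ⟨hγx, hγC⟩, hγx'⟩

theorem main {p : ℕ} [Fact p.Prime] {Ω : Type} [Field Ω] [Algebra (ZMod p) Ω] :
    ∀ m : ℕ, m.Coprime p → ∀ x : Ω, IsStage p x → ∀ z : Ω, z ^ m = x → ∀ ζ : Ω, ζ ^ m = 1 →
      ∃ δ ∈ Gx p x ⊓ geo p Ω, δ z = ζ * z := by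
  have hp : p.Prime := Fact.out
  intro m
  induction m using Nat.strong_induction_on with
  | _ m ih =>
    intro hm x hst z hz ζ hζ
    have hm0 : m ≠ 0 := by
      rintro rfl
      rw [Nat.coprime_zero_left] at hm
      exact hp.one_lt.ne' hm
    by_cases hm1 : m = 1
    · subst hm1
      rw [pow_one] at hζ
      refine ⟨1, one_mem _, ?_⟩
      rw [hζ, one_mul]
      rfl
    · have hℓ : m.minFac.Prime := Nat.minFac_prime hm1
      obtain ⟨m', hm'⟩ : ∃ m', m = m.minFac * m' := Nat.minFac_dvd m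
      set ℓ := m.minFac with hℓdef
      have hne : ℓ ≠ p := by
        intro h
        have h1 : p ∣ m := h ▸ Nat.minFac_dvd m
        exact (Nat.Prime.coprime_iff_not_dvd hp).1 hm.symm h1
      have hm'0 : m' ≠ 0 := by
        rintro rfl
        exact hm0 (by rw [hm', mul_zero])
      have hlt : m' < m := by
        rw [hm']
        exact lt_mul_of_one_lt_left (Nat.pos_of_ne_zero hm'0) hℓ.one_lt
      have hcop' : m'.Coprime p := Nat.Coprime.coprime_dvd_left (Dvd.intro_left ℓ hm'.symm) hm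
      have hx0 : x ≠ 0 := by
        rintro rfl
        exact hst.transc isAlgebraic_zero
      have hz0 : z ≠ 0 := by
        rintro rfl
        rw [zero_pow hm0] at hz
        exact hx0 hz.symm
      have hz' : (z ^ m') ^ ℓ = x := by
        rw [← pow_mul, mul_comm, ← hm', hz]
      have hζ' : (ζ ^ m') ^ ℓ = 1 := by
        rw [← pow_mul, mul_comm, ← hm', hζ]
      obtain ⟨δ₁, hδ₁m, hδ₁⟩ := prime hℓ hne hst hz' hζ'
      obtain ⟨hδ₁x, hδ₁C⟩ := Subgroup.mem_inf.1 hδ₁m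
      have hζ0 : ζ ≠ 0 := by
        rintro rfl
        rw [zero_pow hm0] at hζ
        exact zero_ne_one hζ
      set ζ₁ : Ω := δ₁ z / z with hζ₁
      have hδz0 : δ₁ z ≠ 0 := fun h => hz0 ((map_eq_zero_iff δ₁ δ₁.injective).1 h)
      have hζ₁0 : ζ₁ ≠ 0 := div_ne_zero hδz0 hz0
      have h1 : δ₁ z = ζ₁ * z := by
        rw [hζ₁, div_mul_cancel₀ _ hz0]
      have h2 : ζ₁ ^ m' = ζ ^ m' := by
        have h3 : (δ₁ z) ^ m' = ζ ^ m' * z ^ m' := by
          rw [← map_pow]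
          exact hδ₁
        rw [hζ₁, div_pow, h3, mul_div_assoc, div_self (pow_ne_zero _ hz0), mul_one]
      have h3 : (ζ / ζ₁) ^ m' = 1 := by
        rw [div_pow, h2, div_self (pow_ne_zero _ hζ0)]
      obtain ⟨δ₂, hδ₂m, hδ₂⟩ := ih m' hlt hcop' (z ^ m') (BC_stage hst hz') z rfl
        (ζ / ζ₁) h3
      obtain ⟨hδ₂x, hδ₂C⟩ := Subgroup.mem_inf.1 hδ₂m
      rw [mem_Gx] at hδ₁x
      rw [mem_Gx] at hδ₂x
      have h4 : ζ₁ ^ m = 1 := by
        rw [hζ₁, div_pow, ← map_pow, hz, hδ₁x, div_self hx0]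
      have h5 : δ₂ ζ₁ = ζ₁ := hδ₂C ζ₁ (Rot_mem_cst (Nat.pos_of_ne_zero hm0) h4)
      refine ⟨δ₂ * δ₁, Subgroup.mem_inf.2 ⟨?_, mul_mem hδ₂C hδ₁C⟩, ?_⟩
      · rw [mem_Gx]
        change δ₂ (δ₁ x) = x
        rw [hδ₁x, ← hz', map_pow, hδ₂x]
      · change δ₂ (δ₁ z) = ζ * z
        rw [h1, map_mul, h5, hδ₂, ← mul_assoc, mul_div_cancel₀ _ hζ₁0]

end P2RotM

theorem p2RotM : RotMStmt := by
  intro p _ Ω _ _ m hm x hst z hz ζ hζ
  exact P2RotM.main m hm x hst z hz ζ hζ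

end MP7K
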