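import Pool.Agent.Lib.MP_7f581e_K.Spec2
import Pool.Agent.Lib.MP_7f581e_Z.BR.Main
import Pool.Agent.Lib.MP_7f581e_Z.EPP.Pole

/-!
# C33, Part II, SS: there is ramification outside every normal subgroup of prime index
-/

set_option autoImplicit false

namespace MP7K

open MP7Z

theorem p2SS (hSC : SCStmt) (hUnr : UnrStmt) : SSStmt := by
  intro p _ Ω _ _ x G _ _ ψ hψ N hN hNp
  by_contra hno
  rw [not_exists] at hno
  have hst := hψ.stage
  have key : ∀ V : ValuationSubring Ω, V ≠ ⊤ → ∀ γ : Gx p x,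
      (γ : Ω ≃ₐ[ZMod p] Ω) ∈ Inert p V → ψ γ ∈ N := by
    intro V hV γ hγ
    by_contra hcon
    by_cases hx : x ∈ V
    · obtain ⟨c, hc, hxc, -⟩ := (br_res p Ω x hst V hV).2.2.1 x hx
      exact hno (some c) ⟨V, hV, ⟨hc, hxc⟩, γ, hγ, hcon⟩
    · exact hno none ⟨V, hV, hx, γ, hγ, hcon⟩
  obtain ⟨K, h0, τ, h1, ⟨f, hf⟩, h2, h3, h4⟩ := hUnr p Ω x G ψ hψ N hN hNp key
  have hL : IsLevel p x (IntermediateField.adjoin (Cst p Ω) {x}) :=
    BC_isLevel (p := p) x x 1 (pow_one x)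
  have : IsAlgClosed (Cst p Ω) := br_cst p Ω x hst
  have : CharP (Cst p Ω) p :=
    charP_of_injective_algebraMap (algebraMap (ZMod p) (Cst p Ω)).injective p
  obtain ⟨hcf, htr, -⟩ := (br_lvl p Ω x hst).1 _ hL
  refine hf (hSC p (Cst p Ω) (IntermediateField.adjoin (Cst p Ω) {x}) K
    (IntermediateField.inclusion h0) ⟨x, hL.mem⟩ htr ?_ τ N.index hNp h1 h2 ?_ h4 f)
  · exact EPP.PoleAux.adjoin_gen_eq_top x
  · intro g hg
    exact ⟨⟨g, h3 g hg⟩, rfl⟩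

end MP7K
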