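import Pool.Agent.Lib.MP_7f581e_K.Spec2

/-!
# C33 (MP_7f581e_nt), Part II: Six, the word with six letters
-/

set_option autoImplicit false

namespace MP7K

open MP7Z Polynomial

namespace P2Six

theorem ok_tr {p : ℕ} (c : ZMod p) : (Atom.tr c : Atom p).Ok := trivial

theorem ok_inv {p : ℕ} : (Atom.inv : Atom p).Ok := trivial

theorem ok_pow {p m : ℕ} (h : m.Coprime p) : (Atom.pow m : Atom p).Ok := h

theorem okW_cons {p : ℕ} {a : Atom p} {w : List (Atom p)} (ha : a.Ok) (hw : OkW w) :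
    OkW (a :: w) := by
  intro b hb
  rcases List.mem_cons.1 hb with rfl | hb
  · exact ha
  · exact hw b hb

theorem okW_nil {p : ℕ} : OkW ([] : List (Atom p)) := fun a ha => absurd ha List.not_mem_nil

theorem ev_tr {p : ℕ} [Fact p.Prime] {E : Type} [Field E] [Algebra (ZMod p) E] (y : E) :
    (Atom.tr 1 : Atom p).ev y = y + 1 := by
  show y + algebraMap (ZMod p) E 1 = y + 1
  rw [map_one]

theorem ev_inv {p : ℕ} [Fact p.Prime] {E : Type} [Field E] [Algebra (ZMod p) E] (y : E) :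
    (Atom.inv : Atom p).ev y = y⁻¹ := rfl

theorem ev_pow {p : ℕ} [Fact p.Prime] {E : Type} [Field E] [Algebra (ZMod p) E] (m : ℕ) (y : E) :
    (Atom.pow m : Atom p).ev y = y ^ m := rfl

end P2Six

open P2Six in
theorem p2Six (hEx : ExStmt) (hStg : StgStmt) (hPowS : PowSStmt) (hPowO : PowOStmt)
    (hPowR : PowRStmt) (hMob : MobStmt) (hKeep : KeepStmt) : SixStmt := by
  intro p _ Ω _ _ x G _ _ ψ hRz hram
  have hst := hRz.stage
  have := hst.sepClosed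
  have hG : 0 < Nat.card G := Nat.card_pos
  obtain ⟨m, hm⟩ : ∃ m, m = p * Nat.card G + 1 := ⟨_, rfl⟩
  have hmp : m.Coprime p := by
    rw [hm]
    simp
  have hmG : m.Coprime (Nat.card G) := by
    rw [hm]
    simp
  have hpm : p ≤ m := by
    rw [hm]
    nlinarith
  have htr : (Atom.tr 1 : Atom p).Ok := ok_tr 1
  have hpw : (Atom.pow m : Atom p).Ok := ok_pow hmp
  have hiv : (Atom.inv : Atom p).Ok := ok_inv
  have w1 : OkW ([.pow m] : List (Atom p)) := okW_cons hpw okW_nil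
  have w2 : OkW ([.tr 1, .pow m] : List (Atom p)) := okW_cons htr w1
  have w3 : OkW ([.inv, .tr 1, .pow m] : List (Atom p)) := okW_cons hiv w2
  have w4 : OkW ([.pow m, .inv, .tr 1, .pow m] : List (Atom p)) := okW_cons hpw w3
  have w5 : OkW ([.tr 1, .pow m, .inv, .tr 1, .pow m] : List (Atom p)) := okW_cons htr w4
  have w6 : OkW ([.pow m, .tr 1, .pow m, .inv, .tr 1, .pow m] : List (Atom p)) := okW_cons hpw w5
  obtain ⟨z6, hz6⟩ := hEx p Ω _ w6 x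
  obtain ⟨z5, hz5⟩ : ∃ z, z6 ^ m = z := ⟨_, rfl⟩
  obtain ⟨z4, hz4⟩ : ∃ z, z5 + 1 = z := ⟨_, rfl⟩
  obtain ⟨z3, hz3⟩ : ∃ z, z4⁻¹ = z := ⟨_, rfl⟩
  obtain ⟨z2, hz2⟩ : ∃ z, z3 ^ m = z := ⟨_, rfl⟩
  obtain ⟨z1, hz1⟩ : ∃ z, z2 + 1 = z := ⟨_, rfl⟩
  have e5 : ev ([.pow m] : List (Atom p)) z6 = z5 := by
    rw [ev_cons, ev_nil, ev_pow, hz5]
  have e4 : ev ([.tr 1, .pow m] : List (Atom p)) z6 = z4 := by
    rw [ev_cons, e5, ev_tr, hz4]
  have e3 : ev ([.inv, .tr 1, .pow m] : List (Atom p)) z6 = z3 := by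
    rw [ev_cons, e4, ev_inv, hz3]
  have e2 : ev ([.pow m, .inv, .tr 1, .pow m] : List (Atom p)) z6 = z2 := by
    rw [ev_cons, e3, ev_pow, hz2]
  have e1 : ev ([.tr 1, .pow m, .inv, .tr 1, .pow m] : List (Atom p)) z6 = z1 := by
    rw [ev_cons, e2, ev_tr, hz1]
  have hz0 : z1 ^ m = x := by
    rw [ev_cons, e1, ev_pow] at hz6
    exact hz6
  have t1 : OkW ([.tr 1] : List (Atom p)) := okW_cons htr okW_nil
  have i1 : OkW ([.inv] : List (Atom p)) := okW_cons hiv okW_nil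
  -- the stages
  obtain ⟨s1, h1⟩ := hStg p Ω x hst [.pow m] w1 z1 (by rw [ev_cons, ev_nil, ev_pow, hz0])
  obtain ⟨s2, h2⟩ := hStg p Ω z1 s1 [.tr 1] t1 z2 (by rw [ev_cons, ev_nil, ev_tr, hz1])
  obtain ⟨s3, h3⟩ := hStg p Ω z2 s2 [.pow m] w1 z3 (by rw [ev_cons, ev_nil, ev_pow, hz2])
  obtain ⟨s4, h4⟩ := hStg p Ω z3 s3 [.inv] i1 z4 (by rw [ev_cons, ev_nil, ev_inv, hz3])
  obtain ⟨s5, h5⟩ := hStg p Ω z4 s4 [.tr 1] t1 z5 (by rw [ev_cons, ev_nil, ev_tr, hz4])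
  obtain ⟨s6, h6⟩ := hStg p Ω z5 s5 [.pow m] w1 z6 (by rw [ev_cons, ev_nil, ev_pow, hz5])
  -- the realizations
  have r1 := hPowS p Ω x G ψ hRz m hmp hmG z1 hz0 h1
  have r2 := (hMob p Ω z1 s1 G (rs h1 ψ) z2 h2).1 (Or.inl hz1) r1
  have r3 := hPowS p Ω z2 G _ r2 m hmp hmG z3 hz2 h3
  have r4 := (hMob p Ω z3 s3 G _ z4 h4).1 (Or.inr hz3) r3
  have r5 := (hMob p Ω z4 s4 G _ z5 h5).1 (Or.inl hz4) r4
  have r6 := hPowS p Ω z5 G _ r5 m hmp hmG z6 hz5 h6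
  have h01 : (0 : Ω) - 1 ≠ 0 := by
    rw [zero_sub]
    exact neg_ne_zero.2 one_ne_zero
  refine ⟨_, w6, z6, hz6, h6.trans (h5.trans (h4.trans (h3.trans (h2.trans h1)))),
    { toRz := r6, ram := ?_ }⟩
  intro N hN hNp
  obtain ⟨c, hc⟩ := hram N hN hNp
  have hmN : m.Coprime N.index := Nat.Coprime.coprime_dvd_right (Subgroup.index_dvd_card N) hmG
  rcases c with _ | c₀
  · -- the point at infinity
    have a1 := hPowO p Ω x hst G ψ N hN m hmp hmN z1 hz0 h1 none (Or.inl rfl) hc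
    have a2 := ((hMob p Ω z1 s1 G (rs h1 ψ) z2 h2).2 N).2.1 hz1 a1
    have a3 := hPowO p Ω z2 s2 G _ N hN m hmp hmN z3 hz2 h3 none (Or.inl rfl) a2
    have a4 := ((hMob p Ω z3 s3 G _ z4 h4).2 N).2.2 hz3 a3
    have a5 := ((hMob p Ω z4 s4 G _ z5 h5).2 N).1 hz4 0 a4
    exact hPowR p Ω z5 s5 G _ N hN m hmp hpm z6 hz5 h6 _ h01 a5
  · by_cases h0 : c₀ = 0
    · subst h0
      have a1 := hPowO p Ω x hst G ψ N hN m hmp hmN z1 hz0 h1 (some 0) (Or.inr rfl) hc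
      have a2 := ((hMob p Ω z1 s1 G (rs h1 ψ) z2 h2).2 N).1 hz1 0 a1
      obtain ⟨b, hb, a3⟩ := hPowR p Ω z2 s2 G _ N hN m hmp hpm z3 hz2 h3 _ h01 a2
      exact hKeep p Ω z3 s3 G _ N b hb a3 _ w3 z6 e3 (h6.trans (h5.trans h4))
    · obtain ⟨b, hb, a1⟩ := hPowR p Ω x hst G ψ N hN m hmp hpm z1 hz0 h1 c₀ h0 hc
      exact hKeep p Ω z1 s1 G _ N b hb a1 _ w5 z6 e1
        (h6.trans (h5.trans (h4.trans (h3.trans h2))))

end MP7K
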