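import Pool.Agent.Lib.MP_7f581e_K.Spec2
import Pool.Agent.Lib.MP_7f581e_Z.BR.Main
import Pool.Agent.Lib.MP_7f581e_Z.BR.LevAux

/-!
# C33, Part II: the cyclic extension given by a normal subgroup of prime index
-/

set_option autoImplicit false

namespace MP7K

open MP7Z

namespace P2Unr

variable {p : ℕ} [Fact p.Prime] {Ω : Type} [Field Ω] [Algebra (ZMod p) Ω]

/-- A fixed element is in the field. -/
theorem mem_of_fixed {x : Ω} (hst : IsStage p x) {f : Ω}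
    (hf : ∀ γ ∈ Gx p x ⊓ geo p Ω, γ f = f) : f ∈ IntermediateField.adjoin (Cst p Ω) {x} := by
  have hxK : x ∈ IntermediateField.adjoin (Cst p Ω) {x} :=
    IntermediateField.mem_adjoin_simple_self _ _
  have := LevAux.isGalois_top hst hxK
  have h1 := (InfiniteGalois.mem_bot_iff_fixed
    (k := IntermediateField.adjoin (Cst p Ω) {x}) (K := Ω) f).2 (by
      intro γ
      have h2 := LevAux.ofK_mem γ
      have h3 : LevAux.ofK γ ∈ Gx p x ⊓ geo p Ω := by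
        refine ⟨?_, ?_⟩
        · exact mem_Gx.2 (h2 x hxK)
        · intro c hc
          exact h2 c ((IntermediateField.adjoin (Cst p Ω) {x}).algebraMap_mem
            (⟨c, hc⟩ : Cst p Ω))
      exact hf _ h3)
  rw [IntermediateField.mem_bot] at h1
  obtain ⟨a, ha⟩ := h1
  rw [← ha]
  exact a.2

/-- The subgroup of the geometric elements mapped into `N`. -/
def HN {x : Ω} {G : Type} [Group G] (ψ : Gx p x →* G) (N : Subgroup G) :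
    Subgroup (Ω ≃ₐ[ZMod p] Ω) :=
  ((N.comap ψ).map (Gx p x).subtype) ⊓ geo p Ω

theorem mem_HN {x : Ω} {G : Type} [Group G] {ψ : Gx p x →* G} {N : Subgroup G}
    {γ : Ω ≃ₐ[ZMod p] Ω} : γ ∈ HN ψ N ↔ γ ∈ geo p Ω ∧ ∃ h : γ ∈ Gx p x, ψ ⟨γ, h⟩ ∈ N := by
  constructor
  · rintro ⟨⟨γ', h1, h2⟩, h3⟩
    refine ⟨h3, ?_⟩
    subst h2
    exact ⟨γ'.2, h1⟩
  · rintro ⟨h1, h2, h3⟩
    exact ⟨⟨⟨γ, h2⟩, h3, rfl⟩, h1⟩

/-- Restriction of an automorphism which preserves `K` and fixes the constants. -/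
noncomputable def restr (K : IntermediateField (Cst p Ω) Ω) (γ : Ω ≃ₐ[ZMod p] Ω)
    (hγ : γ ∈ geo p Ω) (hK : ∀ f, f ∈ K ↔ γ f ∈ K) : K ≃ₐ[Cst p Ω] K where
  toFun f := ⟨γ f, (hK f).1 f.2⟩
  invFun f := ⟨γ.symm f, (hK _).2 (by rw [AlgEquiv.apply_symm_apply]; exact f.2)⟩
  left_inv f := Subtype.ext (γ.symm_apply_apply (f : Ω))
  right_inv f := Subtype.ext (γ.apply_symm_apply (f : Ω))
  map_mul' a b := Subtype.ext (map_mul γ (a : Ω) (b : Ω))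
  map_add' a b := Subtype.ext (map_add γ (a : Ω) (b : Ω))
  commutes' c := Subtype.ext (hγ (c : Ω) c.2)

theorem restr_apply (K : IntermediateField (Cst p Ω) Ω) (γ : Ω ≃ₐ[ZMod p] Ω)
    (hγ : γ ∈ geo p Ω) (hK : ∀ f, f ∈ K ↔ γ f ∈ K) (f : K) :
    ((restr K γ hγ hK f : K) : Ω) = γ (f : Ω) := rfl

theorem restr_pow (K : IntermediateField (Cst p Ω) Ω) (γ : Ω ≃ₐ[ZMod p] Ω)
    (hγ : γ ∈ geo p Ω) (hK : ∀ f, f ∈ K ↔ γ f ∈ K) (n : ℕ) (f : K) :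
    (((restr K γ hγ hK ^ n) f : K) : Ω) = (γ ^ n) (f : Ω) := by
  induction n with
  | zero => rfl
  | succ n ih =>
    rw [pow_succ', pow_succ']
    change γ (((restr K γ hγ hK ^ n) f : K) : Ω) = γ ((γ ^ n) (f : Ω))
    rw [ih]

end P2Unr

open P2Unr

theorem p2Unr : UnrStmt := by
  intro p _ Ω _ _ x G _ _ ψ hψ N hN hprime hin
  have hst := hψ.stage
  have hC : IsAlgClosed (Cst p Ω) := br_cst p Ω x hst
  have := hN
  set K₀ := IntermediateField.adjoin (Cst p Ω) {x} with hK₀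
  have hxK₀ : x ∈ K₀ := IntermediateField.mem_adjoin_simple_self _ _
  obtain ⟨S, hS⟩ := hψ.fin
  -- the level `K`
  have hH1 : HN ψ N ≤ Fx p (insert x (Cst p Ω : Set Ω)) := by
    intro γ hγ
    obtain ⟨h1, h2, -⟩ := mem_HN.1 hγ
    rw [mem_Fx]
    rintro a (rfl | ha)
    · exact mem_Gx.1 h2
    · exact h1 a ha
  have hH2 : Fx p (insert x (Cst p Ω : Set Ω) ∪ S) ≤ HN ψ N := by
    intro γ hγ
    rw [mem_Fx] at hγ
    rw [mem_HN]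
    refine ⟨fun c hc => hγ c (Or.inl (Or.inr hc)), ?_, ?_⟩
    · rw [mem_Gx]
      exact hγ x (Or.inl (Or.inl rfl))
    · rw [hS _ (fun s hs => hγ s (Or.inr hs))]
      exact N.one_mem
  obtain ⟨K, hKl, hKH, hKmem, hKn⟩ := br_gal p Ω x hst (HN ψ N) S hH1 hH2
  -- the generator
  have hNtop : N ≠ ⊤ := by
    rintro rfl
    rw [Subgroup.index_top] at hprime
    exact Nat.not_prime_one hprime
  obtain ⟨g, hg⟩ : ∃ g, g ∉ N := by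
    by_contra hcon
    push Not at hcon
    exact hNtop ((Subgroup.eq_top_iff' N).2 hcon)
  obtain ⟨γ₀, hγ₀, hγ₀g⟩ := hψ.reg g
  have hnorm : ∀ h, h ∈ HN ψ N ↔ (γ₀ : Ω ≃ₐ[ZMod p] Ω) * h * (γ₀ : Ω ≃ₐ[ZMod p] Ω)⁻¹ ∈ HN ψ N := by
    have key : ∀ (δ : Gx p x), (δ : Ω ≃ₐ[ZMod p] Ω) ∈ geo p Ω → ∀ h, h ∈ HN ψ N →
        (δ : Ω ≃ₐ[ZMod p] Ω) * h * (δ : Ω ≃ₐ[ZMod p] Ω)⁻¹ ∈ HN ψ N := by
      intro δ hδ h hh
      obtain ⟨h1, h2, h3⟩ := mem_HN.1 hh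
      rw [mem_HN]
      refine ⟨mul_mem (mul_mem hδ h1) (inv_mem hδ), mul_mem (mul_mem δ.2 h2) (inv_mem δ.2), ?_⟩
      have h4 := hN.conj_mem _ h3 (ψ δ)
      rw [← map_mul, ← map_inv, ← map_mul] at h4
      exact h4
    intro h
    refine ⟨key γ₀ hγ₀ h, fun hh => ?_⟩
    have h1 := key γ₀⁻¹ (inv_mem hγ₀) _ hh
    have h2 : ((γ₀⁻¹ : Gx p x) : Ω ≃ₐ[ZMod p] Ω) *
        ((γ₀ : Ω ≃ₐ[ZMod p] Ω) * h * (γ₀ : Ω ≃ₐ[ZMod p] Ω)⁻¹) *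
        ((γ₀⁻¹ : Gx p x) : Ω ≃ₐ[ZMod p] Ω)⁻¹ = h := by
      rw [Subgroup.coe_inv]
      group
    rwa [h2] at h1
  have hK₀K : K₀ ≤ K := by
    intro f hf
    rw [hKmem]
    intro γ hγ
    obtain ⟨h1, h2, -⟩ := mem_HN.1 hγ
    exact BC_fix γ h1 (mem_Gx.1 h2) f hf
  refine ⟨K, hK₀K, restr K γ₀ hγ₀ (hKn γ₀ hnorm), ?_, ?_, ?_, ?_, ?_⟩
  · -- order
    intro f
    apply Subtype.ext
    rw [restr_pow]
    have h1 : (γ₀ : Ω ≃ₐ[ZMod p] Ω) ^ N.index ∈ HN ψ N := by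
      rw [mem_HN]
      refine ⟨pow_mem hγ₀ _, pow_mem γ₀.2 _, ?_⟩
      have h2 := Subgroup.pow_index_mem N (ψ γ₀)
      rw [← map_pow] at h2
      exact h2
    exact (hKmem f).1 f.2 _ h1
  · -- not trivial
    by_contra hcon
    push Not at hcon
    apply hg
    have h1 : (γ₀ : Ω ≃ₐ[ZMod p] Ω) ∈ Fx p (K : Set Ω) := by
      rw [mem_Fx]
      intro f hf
      have h2 := hcon ⟨f, hf⟩
      exact congrArg Subtype.val h2
    rw [hKH, mem_HN] at h1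
    obtain ⟨-, h2, h3⟩ := h1
    rw [← hγ₀g]
    exact h3
  · -- `K₀` is fixed
    intro f
    apply Subtype.ext
    rw [restr_apply]
    exact BC_fix (γ₀ : Ω ≃ₐ[ZMod p] Ω) hγ₀ (mem_Gx.1 γ₀.2) f f.2
  · -- fixed elements
    intro f hf
    have hf0 : (γ₀ : Ω ≃ₐ[ZMod p] Ω) (f : Ω) = f := congrArg Subtype.val hf
    apply mem_of_fixed hst
    rintro γ ⟨hγ1, hγ2⟩
    have : Fact N.index.Prime := ⟨hprime⟩
    have hq : (QuotientGroup.mk (ψ γ₀) : G ⧸ N) ≠ 1 := by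
      intro h1
      rw [QuotientGroup.eq_one_iff, hγ₀g] at h1
      exact hg h1
    have h1 : (QuotientGroup.mk (ψ ⟨γ, hγ1⟩) : G ⧸ N) ∈ Subgroup.zpowers (QuotientGroup.mk (ψ γ₀)) :=
      mem_zpowers_of_prime_card (p := N.index) rfl hq
    obtain ⟨i, hi⟩ := Subgroup.mem_zpowers_iff.1 h1
    rw [← QuotientGroup.mk_zpow, QuotientGroup.eq, ← map_zpow, ← map_inv, ← map_mul] at hi
    have h2 : ((γ₀ : Ω ≃ₐ[ZMod p] Ω) ^ i)⁻¹ * γ ∈ HN ψ N := by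
      rw [mem_HN]
      refine ⟨mul_mem (inv_mem (zpow_mem hγ₀ i)) hγ2,
        mul_mem (inv_mem (zpow_mem γ₀.2 i)) hγ1, hi⟩
    have h3 := (hKmem f).1 f.2 _ h2
    have h4 : (γ₀ : Ω ≃ₐ[ZMod p] Ω) ^ i ∈ Gx p (f : Ω) :=
      zpow_mem (mem_Gx.2 hf0) i
    change (((γ₀ : Ω ≃ₐ[ZMod p] Ω) ^ i)).symm (γ (f : Ω)) = f at h3
    rw [AlgEquiv.symm_apply_eq, mem_Gx.1 h4] at h3
    exact h3
  · -- places
    intro v
    have hK₀l : IsLevel p x K₀ := BC_isLevel x x 1 (pow_one x)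
    obtain ⟨V, hV, hb⟩ := br_abv p Ω x hst K₀ hK₀l v
    obtain ⟨v', hb', -, -⟩ := br_bel p Ω x hst K hKl V hV
    refine ⟨v', fun f => ?_⟩
    refine (br_ram p Ω x hst K₀ K hK₀K hK₀l hKl V hV v v' hb hb').2 ?_ f
    rintro γ ⟨hγ1, hγ2⟩
    have h1 : γ ∈ Gx p x := by
      rw [mem_Gx]
      exact hγ1 x hxK₀
    have h2 : γ ∈ geo p Ω := fun c hc => hγ1 c (K₀.algebraMap_mem (⟨c, hc⟩ : Cst p Ω))
    rw [hKH, mem_HN]
    exact ⟨h2, h1, hin V hV ⟨γ, h1⟩ ⟨h2, hγ2⟩⟩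

end MP7K
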