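import Pool.Agent.Lib.MP_7f581e_K.P2.Fin
import Pool.Agent.Lib.MP_7f581e_K.P2.AGen
import Pool.Agent.Lib.MP_7f581e_K.P2.ASN
import Pool.Agent.Lib.MP_7f581e_K.P2.Com
import Pool.Agent.Lib.MP_7f581e_K.P2.Ex
import Pool.Agent.Lib.MP_7f581e_K.P2.Grp
import Pool.Agent.Lib.MP_7f581e_K.P2.InA
import Pool.Agent.Lib.MP_7f581e_K.P2.InL
import Pool.Agent.Lib.MP_7f581e_K.P2.InP
import Pool.Agent.Lib.MP_7f581e_K.P2.KGen
import Pool.Agent.Lib.MP_7f581e_K.P2.KPow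
import Pool.Agent.Lib.MP_7f581e_K.P2.Keep
import Pool.Agent.Lib.MP_7f581e_K.P2.Lin
import Pool.Agent.Lib.MP_7f581e_K.P2.Mob
import Pool.Agent.Lib.MP_7f581e_K.P2.PowO
import Pool.Agent.Lib.MP_7f581e_K.P2.PowS
import Pool.Agent.Lib.MP_7f581e_K.P2.RDW
import Pool.Agent.Lib.MP_7f581e_K.P2.Rat
import Pool.Agent.Lib.MP_7f581e_K.P2.RotM
import Pool.Agent.Lib.MP_7f581e_K.P2.SS
import Pool.Agent.Lib.MP_7f581e_K.P2.Six
import Pool.Agent.Lib.MP_7f581e_K.P2.Stg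
import Pool.Agent.Lib.MP_7f581e_K.P2.Unr

/-!
# C33, Part II: assembly
-/

set_option autoImplicit false

namespace MP7K

open MP7Z

theorem k2Lin : LinStmt := p2Lin
theorem k2Stg : StgStmt := p2Stg k2Lin
theorem k2Ex : ExStmt := p2Ex k2Lin
theorem k2Com : ComStmt := p2Com k2Lin
theorem k2InP : InPStmt := p2InP
theorem k2InL : InLStmt := p2InL k2Lin
theorem k2InA : InAStmt := p2InA k2InP k2InL
theorem k2Keep : KeepStmt := p2Keep k2Stg k2InA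
theorem k2Grp : GrpStmt := p2Grp
theorem k2RDW : RDWStmt := p2RDW k2Stg k2Com k2InA k2Keep k2Grp
theorem k2PowS : PowSStmt := p2PowS
theorem k2PowO : PowOStmt := p2PowO
theorem k2RotM : RotMStmt := p2RotM
theorem k2Mob : MobStmt := p2Mob k2Stg
theorem k2KGen : KGenStmt := p2KGen
theorem k2AGen : AGenStmt := p2AGen
theorem k2Rat : RatStmt := p2Rat
theorem k2KPow : KPowStmt := p2KPow k2Rat
theorem k2ASN : ASNStmt := p2ASN
theorem k2Unr : UnrStmt := p2Unr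

/-- **(II.0) and (II.1).** -/
theorem k2BaseW : BaseW := p2BaseW k2Ex k2Stg k2RDW

end MP7K
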