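import Pool.Agent.Lib.MP_7f581e_K.Spec2

set_option autoImplicit false

namespace MP7K

namespace P2Stg

open MP7Z Polynomial

variable {p : ℕ} [Fact p.Prime] {Ω : Type} [Field Ω] [Algebra (ZMod p) Ω]

theorem mem_adj (h : LinStmt) (a : Atom p) (ha : a.Ok) (z : Ω) :
    a.ev z ∈ IntermediateField.adjoin (ZMod p) {z} := by
  have hz : z ∈ IntermediateField.adjoin (ZMod p) {z} := IntermediateField.mem_adjoin_simple_self _ _
  cases a with
  | tr c =>
    exact add_mem hz (IntermediateField.algebraMap_mem _ c)
  | inv => exact inv_mem hz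
  | pow n => exact pow_mem hz n
  | add l =>
    have hl : l ≠ 0 := by
      rintro rfl
      exact ha (coeff_zero 0)
    obtain ⟨P, -, -, -, hP, -⟩ := h p l hl
    change lin p l z ∈ _
    rw [hP Ω z, Polynomial.aeval_eq_sum_range]
    apply sum_mem
    intro i _
    exact IntermediateField.smul_mem _ (pow_mem hz i)

theorem one (h : LinStmt) {x : Ω} (hst : IsStage p x) (a : Atom p) (ha : a.Ok) (z : Ω)
    (hz : a.ev z = x) : IsStage p z ∧ Gx p z ≤ Gx p x := by
  have hmem : x ∈ IntermediateField.adjoin (ZMod p) {z} := by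
    rw [← hz]
    exact mem_adj h a ha z
  refine ⟨⟨hst.sepClosed, ?_, ?_⟩, ?_⟩
  · intro hal
    apply hst.transc
    have h1 : IntermediateField.adjoin (ZMod p) {z} ≤ algebraicClosure (ZMod p) Ω := by
      rw [IntermediateField.adjoin_simple_le_iff]
      exact mem_algebraicClosure_iff.2 hal
    exact mem_algebraicClosure_iff.1 (h1 hmem)
  · have hle : IntermediateField.adjoin (ZMod p) {x} ≤ IntermediateField.adjoin (ZMod p) {z} := by
      rw [IntermediateField.adjoin_simple_le_iff]
      exact hmem
    letI : Algebra (IntermediateField.adjoin (ZMod p) {x})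
        (IntermediateField.adjoin (ZMod p) {z}) := (IntermediateField.inclusion hle).toAlgebra
    have : IsScalarTower (IntermediateField.adjoin (ZMod p) {x})
        (IntermediateField.adjoin (ZMod p) {z}) Ω := IsScalarTower.of_algebraMap_eq fun _ => rfl
    have := hst.sep
    exact Algebra.isSeparable_tower_top_of_isSeparable (IntermediateField.adjoin (ZMod p) {x})
      (IntermediateField.adjoin (ZMod p) {z}) Ω
  · intro γ hγ
    have hγz : γ z = z := mem_Gx.1 hγ
    have hfix : ∀ f ∈ IntermediateField.adjoin (ZMod p) {z}, γ f = f := by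
      intro f hf
      induction hf using IntermediateField.adjoin_induction with
      | mem y hy =>
        rw [Set.mem_singleton_iff] at hy
        rw [hy, hγz]
      | algebraMap c => exact γ.commutes c
      | add y w _ _ hy hw => rw [map_add, hy, hw]
      | inv y _ hy => rw [map_inv₀, hy]
      | mul y w _ _ hy hw => rw [map_mul, hy, hw]
    exact mem_Gx.2 (hfix x hmem)

end P2Stg

theorem p2Stg (h : LinStmt) : StgStmt := by
  intro p _ Ω _ _ x hst w
  induction w generalizing x with
  | nil =>
    intro _ y hy
    rw [ev_nil] at hy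
    subst hy
    exact ⟨hst, le_rfl⟩
  | cons a w ih =>
    intro hw y hy
    rw [ev_cons] at hy
    obtain ⟨h1, h2⟩ := P2Stg.one h hst a (hw a (List.mem_cons_self)) (ev w y) hy
    obtain ⟨h3, h4⟩ := ih (ev w y) h1 (fun b hb => hw b (List.mem_cons_of_mem a hb)) y rfl
    exact ⟨h3, h4.trans h2⟩

end MP7K
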